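import Mathlib

/-!
# NIP for tuples: definitions

Structures are families of relations of arbitrary arities; equality is treated as one more relation symbol, so
nothing here speaks about injective maps.
-/

set_option autoImplicit false

namespace Pool.Agent.Lib.MP_4fb322_lc_nip

open Set

/-- structures of signature `ar` on `V` -/
abbrev St {I : Type} (ar : I → ℕ) (V : Type) : Type := (i : I) → Set (Fin (ar i) → V)

variable {I : Type} {ar : I → ℕ} {V X Y : Type}

/-- the structure on `X` pulled back along `f` -/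
def pull (f : X → Y) (M : St ar Y) : St ar X := fun i => {t | f ∘ t ∈ M i}

/-- finitely many structures are realised on every finite set -/
def FinTy (M : St ar V) : Prop := ∀ n : ℕ, (Set.range fun f : Fin n → V => pull f M).Finite

/-- the independence property of the predicate `P` for pairs of tuples indexed by `X` and `Y` -/
def IP (M : St ar V) (X Y : Type) (P : St ar (X ⊕ Y) → Prop) : Prop :=
  ∀ n : ℕ, ∃ (a : Fin n → X → V) (b : Set (Fin n) → Y → V),
    ∀ j S, P (pull (Sum.elim (a j) (b S)) M) ↔ j ∈ S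

/-- the points: `inl (i, x)` is the point `x` of the left tuple `i`, `inr (j, y)` the point `y` of the right
tuple `j` -/
abbrev Pts (X Y : Type) : Type := (ℕ × X) ⊕ (ℕ × Y)

/-- the index of a point -/
def idx : Pts X Y → ℕ := Sum.elim Prod.fst Prod.fst

/-- the points of a left and a right tuple -/
def pt (i j : ℕ) : X ⊕ Y → Pts X Y := Sum.map (fun x => (i, x)) (fun y => (j, y))

/-- change of the indices -/
def rel (σ : ℕ → ℕ) : Pts X Y → Pts X Y := Sum.map (Prod.map σ id) (Prod.map σ id)

/-- evaluation of the points -/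
def ev (a : ℕ → X → V) (b : ℕ → Y → V) : Pts X Y → V :=
  Sum.elim (fun p => a p.1 p.2) (fun p => b p.1 p.2)

/-- canonical arrays with `n` left and `n` right tuples; the right tuples depend on the bipartite graph `E`; the
structure on a set of points depends only on the edges of `E` between the indices of these points -/
structure Arr (M : St ar V) (P : St ar (X ⊕ Y) → Prop) (n : ℕ) (a : ℕ → X → V)
    (b : Set (ℕ × ℕ) → ℕ → Y → V) : Prop where
  adj : ∀ E i j, i < n → j < n → (P (pull (Sum.elim (a i) (b E j)) M) ↔ (i, j) ∈ E)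
  can : ∀ (E E' : Set (ℕ × ℕ)) (i : I) (t : Fin (ar i) → Pts X Y), (∀ k, idx (t k) < n) →
    (∀ k k' u x w y, t k = Sum.inl (u, x) → t k' = Sum.inr (w, y) → ((u, w) ∈ E ↔ (u, w) ∈ E')) →
      (t ∈ pull (ev a (b E)) M i ↔ t ∈ pull (ev a (b E')) M i)

/-- canonical structures `Q E` for all bipartite graphs `E` on `ℕ + ℕ`; the structure on a set of points depends only
on the order of the indices (left and right indices together) and on the edges between them -/
structure Canon (M : St ar V) (P : St ar (X ⊕ Y) → Prop)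
    (Q : Set (ℕ × ℕ) → St ar (Pts X Y)) : Prop where
  can : ∀ (E E' : Set (ℕ × ℕ)) (σ : ℕ → ℕ) (i : I) (t : Fin (ar i) → Pts X Y),
    StrictMonoOn σ {m | ∃ k, idx (t k) = m} →
    (∀ k k' u x w y, t k = Sum.inl (u, x) → t k' = Sum.inr (w, y) →
      ((u, w) ∈ E ↔ (σ u, σ w) ∈ E')) →
      (t ∈ Q E i ↔ rel σ ∘ t ∈ Q E' i)
  adj : ∀ E i j, P (pull (pt i j) (Q E)) ↔ (i, j) ∈ E
  real : ∀ (E : Set (ℕ × ℕ)) (Z : Set (Pts X Y)), Z.Finite → ∃ h : Pts X Y → V,
    ∀ (i : I) (t : Fin (ar i) → Pts X Y), (∀ k, t k ∈ Z) → (t ∈ Q E i ↔ h ∘ t ∈ M i)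

/-- local sparsity of a finite bipartite graph -/
def Sp (L : ℕ) (E : Finset (ℕ × ℕ)) : Prop :=
  ∀ A B : Finset ℕ, A.card + B.card ≤ L →
    (E.filter (fun e => e.1 ∈ A ∧ e.2 ∈ B)).card ≤ A.card + B.card

open Classical in
/-- at most `N` vertices span at most `N + c` edges -/
def Loc (F : Set (ℕ × ℕ)) (N c : ℕ) : Prop :=
  ∀ A B : Finset ℕ, A.card + B.card ≤ N → ((A ×ˢ B).filter (· ∈ F)).card ≤ N + c

/-- the blocks: `S` on `W` has finite disjoint blocks `N j`, finite parts are realised in `M`, and the block `N j` does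
not embed in the union of the other blocks -/
structure Blocks (M : St ar V) {W : Type} (S : St ar W) (N : ℕ → Set W) : Prop where
  fin : ∀ j, (N j).Finite
  real : ∀ Z : Set W, Z.Finite → ∃ h : W → V,
    ∀ (i : I) (t : Fin (ar i) → W), (∀ k, t k ∈ Z) → (t ∈ S i ↔ h ∘ t ∈ M i)
  no : ∀ j, ¬ ∃ f : W → W, (∀ p ∈ N j, ∃ l, l ≠ j ∧ f p ∈ N l) ∧
    ∀ (i : I) (t : Fin (ar i) → W), (∀ k, t k ∈ N j) → (t ∈ S i ↔ f ∘ t ∈ S i)

open Classical in
/-- `F` on `A` and `G` off `A` -/
noncomputable def mrg {Q : Type} (A : Set Q) (F G : Q → V) : Q → V :=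
  fun q => if q ∈ A then F q else G q

/-- no independence property for any partition of the coordinates -/
def Tame {Q : Type} (B : Set (Q → V)) : Prop :=
  ∀ A : Set Q, ∃ m : ℕ, ¬ ∃ (F : Fin m → Q → V) (G : Set (Fin m) → Q → V),
    ∀ j S, mrg A (F j) (G S) ∈ B ↔ j ∈ S

end Pool.Agent.Lib.MP_4fb322_lc_nip
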