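import Mathlib

/-!
# Hales-Jewett with marks (HJ*)

`hjStar`: for finite `α`, `κ` and `p` there is a finite `Ω` such that every colouring
`c I m w ∈ κ` (`I ⊆ Fin p`, `m : Fin p → Ω` a tuple of marked positions of which only `m|I`
matters, `w : Ω → α` a word) admits positions `m` and a substitution `φ` of letters
`l : Fin p → α` with
* `φ l (m i) = l i`,
* every letter of `φ l` is either a variable letter `l i` or a constant,
* if `l`, `l'` agree on `I` then `c I m (φ l) = c I m (φ l')`.
-/

set_option autoImplicit false

namespace Pool.Nip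

open Combinatorics

theorem hjStar (α κ : Type) [Finite α] [Nonempty α] [Finite κ] [Nonempty κ] (p : ℕ) :
    ∃ (Ω : Type) (_ : Fintype Ω), ∀ c : Finset (Fin p) → (Fin p → Ω) → (Ω → α) → κ,
      (∀ (I : Finset (Fin p)) (m m' : Fin p → Ω) (w : Ω → α),
        (∀ i ∈ I, m i = m' i) → c I m w = c I m' w) →
      ∃ (m : Fin p → Ω) (φ : (Fin p → α) → Ω → α),
        (∀ l i, φ l (m i) = l i) ∧
        (∀ ω, (∃ i, ∀ l, φ l ω = l i) ∨ (∃ x, ∀ l, φ l ω = x)) ∧
        ∀ (I : Finset (Fin p)) (l l' : Fin p → α), (∀ i ∈ I, l i = l' i) →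
          c I m (φ l) = c I m (φ l') := by
  classical
  induction p generalizing κ with
  | zero =>
    refine ⟨Empty, inferInstance, fun c _ => ⟨Fin.elim0, fun _ => Empty.elim, ?_, ?_, ?_⟩⟩
    · intro l i
      exact i.elim0
    · intro ω
      exact ω.elim
    · intro I l l' _
      rfl
  | succ p ih =>
    obtain ⟨Ω', hΩ', h'⟩ := ih (Bool → α → κ)
    obtain ⟨P, hP, hHJ⟩ := Line.exists_mono_in_high_dimension α
      (Finset (Fin p) → (Fin p → Ω') → (Ω' → α) → κ)
    have hPne : Nonempty P := by
      obtain ⟨k⟩ := ‹Nonempty κ›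
      obtain ⟨L, -⟩ := hHJ (fun _ _ _ _ => k)
      obtain ⟨i, -⟩ := L.proper
      exact ⟨i⟩
    obtain ⟨d⟩ := hPne
    refine ⟨P ⊕ Ω', inferInstance, fun c hc => ?_⟩
    obtain ⟨L, k0, hL⟩ := hHJ (fun w₀ I' m' w' => c (I'.map (Fin.succEmb p))
      (Fin.cons (Sum.inl d) (fun i => Sum.inr (m' i))) (Sum.elim w₀ w'))
    obtain ⟨i₀, hi₀⟩ := L.proper
    obtain ⟨m', φ', ha, hb, hcc⟩ := h'
      (fun I' m' w' β x => c (if β then insert 0 (I'.map (Fin.succEmb p))
        else I'.map (Fin.succEmb p))
        (Fin.cons (Sum.inl i₀) (fun i => Sum.inr (m' i))) (Sum.elim (L x) w'))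
      (by
        intro I m₁ m₂ w hm
        funext β x
        apply hc
        intro i hi
        rcases Fin.eq_zero_or_eq_succ i with rfl | ⟨j, rfl⟩
        · rfl
        · have hjI : j ∈ I := by
            cases β <;> simpa [Fin.succ_ne_zero] using hi
          rw [Fin.cons_succ, Fin.cons_succ, hm j hjI])
    refine ⟨Fin.cons (Sum.inl i₀) (fun i => Sum.inr (m' i)),
      fun l => Sum.elim (L (l 0)) (φ' (Fin.tail l)), ?_, ?_, ?_⟩
    · intro l i
      refine Fin.cases ?_ (fun j => ?_) i
      · simp [Line.apply_def, hi₀]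
      · simp [ha, Fin.tail]
    · rintro (ω | ω)
      · cases h : L.idxFun ω with
        | none =>
          left
          exact ⟨0, fun l => by simp [Line.apply_def, h]⟩
        | some x =>
          right
          exact ⟨x, fun l => by simp [Line.apply_def, h]⟩
      · rcases hb ω with ⟨i, hi⟩ | ⟨x, hx⟩
        · left
          exact ⟨i.succ, fun l => by simp [hi, Fin.tail]⟩
        · right
          exact ⟨x, fun l => by simp [hx]⟩
    · intro I l l' hl
      set I' : Finset (Fin p) := Finset.univ.filter (fun j => j.succ ∈ I) with hI'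
      have key := congrFun (hcc I' (Fin.tail l) (Fin.tail l') (by
        intro i hi
        exact hl i.succ (by simpa [hI'] using hi)))
      by_cases h0 : (0 : Fin (p + 1)) ∈ I
      · have hIeq : insert 0 (I'.map (Fin.succEmb p)) = I := by
          ext i
          refine Fin.cases ?_ (fun j => ?_) i
          · simp [h0]
          · simp [hI', Fin.succ_ne_zero]
        have := congrFun (key true) (l 0)
        simp only [if_true, hIeq] at this
        rw [this, hl 0 h0]
      · have hIeq : I'.map (Fin.succEmb p) = I := by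
          ext i
          refine Fin.cases ?_ (fun j => ?_) i
          · simp [h0, Fin.succ_ne_zero]
          · simp [hI']
        have key2 := congrFun (key false) (l 0)
        simp only [Bool.false_eq_true, if_false, hIeq] at key2
        rw [key2]
        have hmono : ∀ x, c I (Fin.cons (Sum.inl i₀) (fun i => Sum.inr (m' i)))
            (Sum.elim (L x) (φ' (Fin.tail l'))) = k0 I' m' (φ' (Fin.tail l')) := by
          intro x
          rw [← hL x]
          simp only [hIeq]
          apply hc
          intro i hi
          rcases Fin.eq_zero_or_eq_succ i with rfl | ⟨j, rfl⟩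
          · exact absurd hi h0
          · rw [Fin.cons_succ, Fin.cons_succ]
        rw [hmono, hmono]

end Pool.Nip
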