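import Pool.Agent.Lib.MP_4fb322_lc_nip.Defs
import Pool.Agent.Lib.MP_4fb322_lc_nip.N1

/-! Row N2: canonical arrays (partite canonisation).

Proof. `n` is given. Letters `α = Fin n → Bool` (a letter = the row of a position: the adjacency of a left tuple with the
`n` right tuples), colours `κ` = the set of all structures `pull h M`, `h : (Fin n × X) ⊕ (Fin n × Y) → V`, as a
finite type (`FinTy` along an equivalence of this finite type with `Fin N`; give `κ` one more element or use the default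
position so that it is nonempty). `hjStar α κ n` gives `Ω`. `IP` for `n' = card Ω` along `Fin n' ≃ Ω` gives `a' : Ω → X → V` and
`b' : Set Ω → Y → V` with `P (pull (Sum.elim (a' ω) (b' S)) M) ↔ ω ∈ S`. For `I' : Finset (Fin n)`, `m : Fin n → Ω` and a word
`w : Ω → α` let `c I' m w` be the structure of the family `(i, x) ↦ a' (m i) x` (for `i ∉ I'` replace `m i` by a fixed default
element of `Ω`, so that `c I' m w` depends only on `m` on `I'`), `(j, y) ↦ b' {ω | w ω j = true} y`. Let `m, φ` be as in `hjStar`. For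
`E` let `l_E i j = decide ((i, j) ∈ E)`, `a i = a' (m i)`, `b E j = b' {ω | φ l_E ω j = true}` for `i, j < n` (anything else
for the other indices).
`adj`: `m i ∈ {ω | φ l_E ω j}` iff `(i, j) ∈ E`, by (a).
`can`: let `A` be the left indices and `B` the right indices occurring in `t`; `E`, `E'` agree on `A × B`. Put
`E'' = (E on the pairs with right index in B) ∪ (E' on the other pairs)`. By (b) the set `{ω | φ l ω j = true}` depends only on
the column `i ↦ l i j`; so `b E j = b E'' j` for `j ∈ B` and the two structures agree on `t`. And `l_(E'')`,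
`l_(E')` agree on the rows `i ∈ A`; by (c) with `I' = A` the colours of `φ l_(E'')` and `φ l_(E')` are equal, and on the points of
`t` the family of the colour is the right one. -/

set_option autoImplicit false

namespace Pool.Agent.Lib.MP_4fb322_lc_nip

open Set

variable {I : Type} {ar : I → ℕ} {V X Y : Type}

private theorem finTy_range {M : St ar V} (hf : FinTy M) (K : Type) [Finite K] :
    (Set.range fun f : K → V => pull f M).Finite := by
  obtain ⟨N, ⟨e⟩⟩ := Finite.exists_equiv_fin K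
  refine ((hf N).image (pull e)).subset ?_
  rintro _ ⟨f, rfl⟩
  refine ⟨pull (f ∘ e.symm) M, ⟨f ∘ e.symm, rfl⟩, ?_⟩
  funext i
  ext t
  have e1 : (f ∘ e.symm) ∘ (e ∘ t) = f ∘ t := by
    funext k
    simp
  show (f ∘ e.symm) ∘ (e ∘ t) ∈ M i ↔ f ∘ t ∈ M i
  rw [e1]

private theorem nonempty_of_IP {M : St ar V} {P : St ar (X ⊕ Y) → Prop}
    (h : IP M X Y P) : Nonempty V := by
  by_contra hV
  rw [not_nonempty_iff] at hV
  obtain ⟨a, b, hab⟩ := h 1
  have h1 := hab 0 Set.univ
  have h2 := hab 0 ∅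
  have e : Sum.elim (a 0) (b Set.univ) = Sum.elim (a 0) (b ∅) := by
    funext q
    exact hV.elim (Sum.elim (a 0) (b Set.univ) q)
  rw [e] at h1
  exact Set.notMem_empty _ (h2.1 (h1.2 (Set.mem_univ _)))

/-- the colour of a word -/
private noncomputable def col (v0 : V) (n : ℕ) {Ω : Type} (a : Ω → X → V)
    (b : Set Ω → Y → V) (J : Finset (Fin n)) (m : Fin n → Ω) (w : Ω → Fin n → Bool) :
    (Fin n × X) ⊕ (Fin n × Y) → V :=
  Sum.elim (fun p => if p.1 ∈ J then a (m p.1) p.2 else v0) (fun p => b {ω | w ω p.1 = true} p.2)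

open Classical in
/-- the letters of a graph -/
private noncomputable def lt (n : ℕ) (E : Set (ℕ × ℕ)) : Fin n → Fin n → Bool :=
  fun i j => decide ((i.1, j.1) ∈ E)

private theorem lt_true (n : ℕ) (E : Set (ℕ × ℕ)) (i j : Fin n) :
    lt n E i j = true ↔ (i.1, j.1) ∈ E := by
  classical
  unfold lt
  exact decide_eq_true_iff

theorem exists_arr [Finite X] [Finite Y] {M : St ar V} (hf : FinTy M) {P : St ar (X ⊕ Y) → Prop}
    (h : IP M X Y P) (n : ℕ) : ∃ a b, Arr M P n a b := by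
  classical
  obtain ⟨v0⟩ := nonempty_of_IP h
  set κ : Type := ↥(Set.range fun f : ((Fin n × X) ⊕ (Fin n × Y)) → V => pull f M) with hκ
  have : Finite κ := (finTy_range hf ((Fin n × X) ⊕ (Fin n × Y))).to_subtype
  have : Nonempty κ := ⟨⟨_, ⟨fun _ => v0, rfl⟩⟩⟩
  obtain ⟨Ω, hΩ, H⟩ := Pool.Nip.hjStar (Fin n → Bool) κ n
  obtain ⟨a0, b0, h0⟩ := h (Fintype.card Ω)
  set e : Ω ≃ Fin (Fintype.card Ω) := Fintype.equivFin Ω with he
  set a' : Ω → X → V := fun ω => a0 (e ω) with ha'
  set b' : Set Ω → Y → V := fun S => b0 {k | e.symm k ∈ S} with hb'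
  have h1 : ∀ ω S, P (pull (Sum.elim (a' ω) (b' S)) M) ↔ ω ∈ S := by
    intro ω S
    refine (h0 (e ω) {k | e.symm k ∈ S}).trans ?_
    show e.symm (e ω) ∈ S ↔ ω ∈ S
    rw [Equiv.symm_apply_apply]
  obtain ⟨m, φ, hA, hB, hC⟩ := H
    (fun J m w => ⟨pull (col v0 n a' b' J m w) M, ⟨_, rfl⟩⟩) (by
      intro J m m' w hm
      apply Subtype.ext
      show pull (col v0 n a' b' J m w) M = pull (col v0 n a' b' J m' w) M
      congr 1
      funext q
      rcases q with ⟨i, x⟩ | ⟨j, y⟩
      · show (if i ∈ J then a' (m i) x else v0) = if i ∈ J then a' (m' i) x else v0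
        by_cases hi : i ∈ J
        · rw [if_pos hi, if_pos hi, hm i hi]
        · rw [if_neg hi, if_neg hi]
      · rfl)
  set a : ℕ → X → V := fun i => if hi : i < n then a' (m ⟨i, hi⟩) else fun _ => v0 with ha
  set b : Set (ℕ × ℕ) → ℕ → Y → V := fun E j =>
    if hj : j < n then b' {ω | φ (lt n E) ω ⟨j, hj⟩ = true} else fun _ => v0 with hb
  have ha1 : ∀ (i : Fin n), a i.1 = a' (m i) := fun i => dif_pos i.2
  have hb1 : ∀ E (j : Fin n), b E j.1 = b' {ω | φ (lt n E) ω j = true} := fun E j => dif_pos j.2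
  refine ⟨a, b, ?_, ?_⟩
  · intro E i j hi hj
    rw [ha1 ⟨i, hi⟩, hb1 E ⟨j, hj⟩, h1]
    show φ (lt n E) (m ⟨i, hi⟩) ⟨j, hj⟩ = true ↔ _
    rw [hA, lt_true]
  · intro E E' i t ht hEE
    set A : Finset (Fin n) := Finset.univ.filter (fun u => ∃ k x, t k = Sum.inl (u.1, x)) with hAd
    set F : Set (ℕ × ℕ) := {p | if (∃ k y, t k = Sum.inr (p.2, y)) then p ∈ E else p ∈ E'} with hF
    have hFE : ∀ u w, (∃ k y, t k = Sum.inr (w, y)) → ((u, w) ∈ F ↔ (u, w) ∈ E) := by
      intro u w hw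
      show (if (∃ k y, t k = Sum.inr (w, y)) then (u, w) ∈ E else (u, w) ∈ E') ↔ _
      rw [if_pos hw]
    have hFE' : ∀ u w, (¬ ∃ k y, t k = Sum.inr (w, y)) → ((u, w) ∈ F ↔ (u, w) ∈ E') := by
      intro u w hw
      show (if (∃ k y, t k = Sum.inr (w, y)) then (u, w) ∈ E else (u, w) ∈ E') ↔ _
      rw [if_neg hw]
    -- step 1
    have s1 : ev a (b E) ∘ t = ev a (b F) ∘ t := by
      funext k
      have hk := ht k
      show ev a (b E) (t k) = ev a (b F) (t k)
      rcases hq : t k with ⟨u, x⟩ | ⟨w, y⟩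
      · rfl
      · rw [hq] at hk
        have hw : w < n := hk
        show b E w y = b F w y
        have e1 : {ω | φ (lt n E) ω ⟨w, hw⟩ = true} = {ω | φ (lt n F) ω ⟨w, hw⟩ = true} := by
          ext ω
          show φ (lt n E) ω ⟨w, hw⟩ = true ↔ φ (lt n F) ω ⟨w, hw⟩ = true
          rcases hB ω with ⟨i', hi'⟩ | ⟨x', hx'⟩
          · rw [hi', hi']
            rw [lt_true, lt_true]
            exact (hFE i'.1 w ⟨k, y, hq⟩).symm
          · rw [hx', hx']
        rw [hb1 E ⟨w, hw⟩, hb1 F ⟨w, hw⟩, e1]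
    -- step 2
    have s2 : ∀ u ∈ A, lt n F u = lt n E' u := by
      intro u hu
      obtain ⟨k, x, hk⟩ := (Finset.mem_filter.1 hu).2
      funext j
      rw [Bool.eq_iff_iff, lt_true, lt_true]
      by_cases hj : ∃ k y, t k = Sum.inr (j.1, y)
      · obtain ⟨k', y, hk'⟩ := hj
        rw [hFE u.1 j.1 ⟨k', y, hk'⟩]
        exact hEE k k' u.1 x j.1 y hk hk'
      · exact hFE' u.1 j.1 hj
    have s3 : pull (col v0 n a' b' A m (φ (lt n F))) M =
        pull (col v0 n a' b' A m (φ (lt n E'))) M :=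
      congrArg Subtype.val (hC A (lt n F) (lt n E') s2)
    have s4 : ∀ k, ∃ q : (Fin n × X) ⊕ (Fin n × Y), ∀ G : Set (ℕ × ℕ),
        col v0 n a' b' A m (φ (lt n G)) q = ev a (b G) (t k) := by
      intro k
      have hk := ht k
      rcases hq : t k with ⟨u, x⟩ | ⟨w, y⟩
      · rw [hq] at hk
        have hu : u < n := hk
        refine ⟨Sum.inl (⟨u, hu⟩, x), fun G => ?_⟩
        show (if (⟨u, hu⟩ : Fin n) ∈ A then a' (m ⟨u, hu⟩) x else v0) = a u x
        rw [if_pos (Finset.mem_filter.2 ⟨Finset.mem_univ _, k, x, hq⟩), ha1 ⟨u, hu⟩]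
      · rw [hq] at hk
        have hw : w < n := hk
        refine ⟨Sum.inr (⟨w, hw⟩, y), fun G => ?_⟩
        show b' {ω | φ (lt n G) ω ⟨w, hw⟩ = true} y = b G w y
        rw [hb1 G ⟨w, hw⟩]
    choose t' ht' using s4
    have s5 : ∀ G : Set (ℕ × ℕ), col v0 n a' b' A m (φ (lt n G)) ∘ t' = ev a (b G) ∘ t :=
      fun G => funext fun k => ht' k G
    show ev a (b E) ∘ t ∈ M i ↔ ev a (b E') ∘ t ∈ M i
    rw [s1, ← s5 F, ← s5 E']
    have s6 := congrFun s3 i
    have s7 : t' ∈ pull (col v0 n a' b' A m (φ (lt n F))) M i ↔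
        t' ∈ pull (col v0 n a' b' A m (φ (lt n E'))) M i := by rw [s6]
    exact s7

end Pool.Agent.Lib.MP_4fb322_lc_nip
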