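import Pool.Agent.Lib.MP_4fb322_lc_nip.N3a

/-! Row N3: canonical structures for all bipartite graphs.

`Q E` is the iterated limit (over the increasingly ordered indices of a tuple, then over `n`) of the canonical arrays. -/

set_option autoImplicit false

namespace Pool.Agent.Lib.MP_4fb322_lc_nip

open Set Filter

variable {I : Type} {ar : I → ℕ} {V X Y : Type}

/-- the image of the part of `E` on `K` -/
private def im (σ : ℕ → ℕ) (K : Finset ℕ) (E : Set (ℕ × ℕ)) : Set (ℕ × ℕ) :=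
  {q | ∃ u w, u ∈ K ∧ w ∈ K ∧ (u, w) ∈ E ∧ q = (σ u, σ w)}

private theorem mem_im {σ : ℕ → ℕ} {K : Finset ℕ} {E : Set (ℕ × ℕ)} (hσ : Set.InjOn σ (K : Set ℕ))
    {u w : ℕ} (hu : u ∈ K) (hw : w ∈ K) : (σ u, σ w) ∈ im σ K E ↔ (u, w) ∈ E := by
  constructor
  · rintro ⟨u', w', hu', hw', h, he⟩
    have h1 := hσ hu hu' (Prod.mk.inj he).1
    have h2 := hσ hw hw' (Prod.mk.inj he).2
    rw [h1, h2]
    exact h
  · intro h
    exact ⟨u, w, hu, hw, h, rfl⟩

/-- the increasing list of the elements -/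
private def srt (K : Finset ℕ) : List ℕ := K.sort

private theorem mem_srt {K : Finset ℕ} {k : ℕ} : k ∈ srt K ↔ k ∈ K := Finset.mem_sort _

private theorem srt_nodup (K : Finset ℕ) : (srt K).Nodup := Finset.sort_nodup _ _

private theorem srt_lt (K : Finset ℕ) : (srt K).Pairwise (· < ·) := (Finset.sortedLT_sort K).pairwise

private theorem srt_sub {K L : Finset ℕ} (h : K ⊆ L) : (srt K).Sublist (srt L) := by
  refine List.sublist_of_subperm_of_pairwise (r := (· ≤ ·)) ?_ (Finset.pairwise_sort _ _)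
    (Finset.pairwise_sort _ _)
  exact (srt_nodup K).subperm fun k hk => mem_srt.2 (h (mem_srt.1 hk))

private theorem srt_image {K : Finset ℕ} {σ : ℕ → ℕ} (h : StrictMonoOn σ (K : Set ℕ)) :
    srt (K.image σ) = (srt K).map σ := by
  refine List.Perm.eq_of_pairwise' (r := (· ≤ ·)) (Finset.pairwise_sort _ _) ?_ ?_
  · refine List.pairwise_map.2 ?_
    refine (srt_lt K).imp_of_mem ?_
    intro a b ha hb hab
    exact (h (mem_srt.1 ha) (mem_srt.1 hb) hab).le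
  · refine (List.perm_ext_iff_of_nodup (srt_nodup _) ?_).2 ?_
    · exact List.Nodup.map_on (fun x hx y hy he =>
        h.injOn (mem_srt.1 hx) (mem_srt.1 hy) he) (srt_nodup K)
    · intro k
      rw [mem_srt, Finset.mem_image, List.mem_map]
      constructor
      · rintro ⟨a, ha, rfl⟩
        exact ⟨a, mem_srt.2 ha, rfl⟩
      · rintro ⟨a, ha, rfl⟩
        exact ⟨a, mem_srt.1 ha, rfl⟩

/-- only strictly monotone choices matter -/
private theorem Lm_equiv {K : Finset ℕ} {p q : (ℕ → ℕ) → Prop}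
    (h : ∀ τ : ℕ → ℕ, StrictMonoOn τ (K : Set ℕ) → (p τ ↔ q τ)) (σ : ℕ → ℕ) :
    Lm (srt K) σ p ↔ Lm (srt K) σ q := by
  have hs : Lm (srt K) σ (fun τ => StrictMonoOn τ (K : Set ℕ)) := by
    refine Lm_mono ?_ (Lm_strictMono (srt_lt K) σ)
    intro τ hτ x hx y hy hxy
    exact hτ (mem_srt.2 hx) (mem_srt.2 hy) hxy
  constructor
  · intro hp
    exact Lm_mono (fun τ hτ => (h τ hτ.1).1 hτ.2) (Lm_and.2 ⟨hs, hp⟩)
  · intro hp
    exact Lm_mono (fun τ hτ => (h τ hτ.1).2 hτ.2) (Lm_and.2 ⟨hs, hp⟩)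

/-- eventually all natural numbers are large -/
private theorem eventually_gt (B : ℕ) : ∀ᶠ n in (UF : Filter ℕ), B < n := by
  have : {m | B < m}ᶜ.Finite := by
    refine (Set.finite_le_nat B).subset ?_
    intro m hm
    simpa using hm
  have h2 := this.compl_mem_hyperfilter
  rw [compl_compl] at h2
  exact h2

/-- the limit over `n` -/
private def Pn (M : St ar V) (a : ℕ → ℕ → X → V) (b : ℕ → Set (ℕ × ℕ) → ℕ → Y → V) (K : Finset ℕ)
    (E : Set (ℕ × ℕ)) (i : I) (t : Fin (ar i) → Pts X Y) (σ : ℕ → ℕ) : Prop :=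
  ∀ᶠ n in (UF : Filter ℕ), rel σ ∘ t ∈ pull (ev (a n) (b n (im σ K E))) M i

/-- the indices of a tuple -/
private def ind {n : ℕ} (t : Fin n → Pts X Y) : Finset ℕ := Finset.univ.image fun k => idx (t k)

private theorem mem_ind {n : ℕ} {t : Fin n → Pts X Y} (k : Fin n) : idx (t k) ∈ ind t :=
  Finset.mem_image.2 ⟨k, Finset.mem_univ _, rfl⟩

/-- the canonical structures -/
private def QQ (M : St ar V) (a : ℕ → ℕ → X → V) (b : ℕ → Set (ℕ × ℕ) → ℕ → Y → V)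
    (E : Set (ℕ × ℕ)) : St ar (Pts X Y) :=
  fun i => {t | Lm (srt (ind t)) id (Pn M a b (ind t) E i t)}

private theorem idx_rel (σ : ℕ → ℕ) (p : Pts X Y) : idx (rel σ p) = σ (idx p) := by
  rcases p with p | p <;> rfl

private theorem rel_inl {σ : ℕ → ℕ} {p : Pts X Y} {u : ℕ} {x : X} (h : rel σ p = Sum.inl (u, x)) :
    ∃ u', p = Sum.inl (u', x) ∧ σ u' = u := by
  rcases p with ⟨u', x'⟩ | ⟨u', x'⟩
  · have h1 : (Sum.inl (σ u', x') : Pts X Y) = Sum.inl (u, x) := h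
    have h2 := Prod.mk.inj (Sum.inl.inj h1)
    exact ⟨u', by rw [h2.2], h2.1⟩
  · have h1 : (Sum.inr (σ u', x') : Pts X Y) = Sum.inl (u, x) := h
    exact absurd h1 (by simp)

private theorem rel_inr {σ : ℕ → ℕ} {p : Pts X Y} {u : ℕ} {x : Y} (h : rel σ p = Sum.inr (u, x)) :
    ∃ u', p = Sum.inr (u', x) ∧ σ u' = u := by
  rcases p with ⟨u', x'⟩ | ⟨u', x'⟩
  · have h1 : (Sum.inl (σ u', x') : Pts X Y) = Sum.inr (u, x) := h
    exact absurd h1 (by simp)
  · have h1 : (Sum.inr (σ u', x') : Pts X Y) = Sum.inr (u, x) := h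
    have h2 := Prod.mk.inj (Sum.inr.inj h1)
    exact ⟨u', by rw [h2.2], h2.1⟩

private theorem rel_congr {σ σ' : ℕ → ℕ} {p : Pts X Y} (h : σ (idx p) = σ' (idx p)) :
    rel σ p = rel σ' p := by
  rcases p with ⟨u, x⟩ | ⟨u, x⟩
  · show (Sum.inl (σ u, x) : Pts X Y) = Sum.inl (σ' u, x)
    rw [show σ u = σ' u from h]
  · show (Sum.inr (σ u, x) : Pts X Y) = Sum.inr (σ' u, x)
    rw [show σ u = σ' u from h]

private theorem Pn_dep {M : St ar V} {a : ℕ → ℕ → X → V} {b : ℕ → Set (ℕ × ℕ) → ℕ → Y → V}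
    {K : Finset ℕ} {E : Set (ℕ × ℕ)} {i : I} {t : Fin (ar i) → Pts X Y} (h : ind t ⊆ K) :
    Dep (srt K) (Pn M a b K E i t) := by
  intro σ σ' hσ
  have h1 : rel σ ∘ t = rel σ' ∘ t := by
    funext k
    exact rel_congr (hσ _ (mem_srt.2 (h (mem_ind k))))
  have h2 : im σ K E = im σ' K E := by
    ext q
    constructor
    · rintro ⟨u, w, hu, hw, he, rfl⟩
      exact ⟨u, w, hu, hw, he, by rw [hσ u (mem_srt.2 hu), hσ w (mem_srt.2 hw)]⟩
    · rintro ⟨u, w, hu, hw, he, rfl⟩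
      exact ⟨u, w, hu, hw, he, by rw [hσ u (mem_srt.2 hu), hσ w (mem_srt.2 hw)]⟩
  show (∀ᶠ n in (UF : Filter ℕ), rel σ ∘ t ∈ pull (ev (a n) (b n (im σ K E))) M i) ↔
    ∀ᶠ n in (UF : Filter ℕ), rel σ' ∘ t ∈ pull (ev (a n) (b n (im σ' K E))) M i
  rw [h1, h2]

/-- comparison of two graphs -/
private theorem Pn_congr {M : St ar V} {P : St ar (X ⊕ Y) → Prop} {a : ℕ → ℕ → X → V}
    {b : ℕ → Set (ℕ × ℕ) → ℕ → Y → V} (hab : ∀ n, Arr M P n (a n) (b n)) {K L : Finset ℕ}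
    {E F : Set (ℕ × ℕ)} {i : I} {t : Fin (ar i) → Pts X Y} (hK : ind t ⊆ K) (hL : ind t ⊆ L)
    {σ : ℕ → ℕ} (hσK : StrictMonoOn σ (K : Set ℕ)) (hσL : StrictMonoOn σ (L : Set ℕ))
    (h : ∀ k k' u x w y, t k = Sum.inl (u, x) → t k' = Sum.inr (w, y) →
      ((u, w) ∈ E ↔ (u, w) ∈ F)) :
    Pn M a b K E i t σ ↔ Pn M a b L F i t σ := by
  obtain ⟨B, hB⟩ : ∃ B, ∀ k, idx (rel σ (t k)) ≤ B := by
    refine ⟨Finset.univ.sup fun k => idx (rel σ (t k)), fun k => ?_⟩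
    exact Finset.le_sup (f := fun k => idx (rel σ (t k))) (Finset.mem_univ k)
  refine Filter.eventually_congr ((eventually_gt B).mono fun n hn => ?_)
  refine (hab n).can _ _ i (rel σ ∘ t) (fun k => lt_of_le_of_lt (hB k) hn) ?_
  intro k k' u x w y hk hk'
  obtain ⟨u', hu', rfl⟩ := rel_inl hk
  obtain ⟨w', hw', rfl⟩ := rel_inr hk'
  have h1 : u' ∈ ind t := by
    have := mem_ind (t := t) k
    rwa [hu'] at this
  have h2 : w' ∈ ind t := by
    have := mem_ind (t := t) k'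
    rwa [hw'] at this
  rw [mem_im hσK.injOn (hK h1) (hK h2), mem_im hσL.injOn (hL h1) (hL h2)]
  exact h k k' u' x w' y hu' hw'

/-- the value of the canonical structure at a tuple, over a larger set of indices -/
private theorem mem_QQ {M : St ar V} {P : St ar (X ⊕ Y) → Prop} {a : ℕ → ℕ → X → V}
    {b : ℕ → Set (ℕ × ℕ) → ℕ → Y → V} (hab : ∀ n, Arr M P n (a n) (b n)) {K : Finset ℕ}
    {E : Set (ℕ × ℕ)} {i : I} {t : Fin (ar i) → Pts X Y} (hK : ind t ⊆ K) :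
    t ∈ QQ M a b E i ↔ Lm (srt K) id (Pn M a b K E i t) := by
  have h1 : Lm (srt K) id (Pn M a b K E i t) ↔ Lm (srt K) id (Pn M a b (ind t) E i t) :=
    Lm_equiv (fun τ hτ => Pn_congr hab hK (Finset.Subset.refl _) hτ
      (hτ.mono (Finset.coe_subset.2 hK)) fun _ _ _ _ _ _ _ _ => Iff.rfl) id
  rw [h1, Lm_sub (srt_sub hK) (srt_nodup K) (Pn_dep (Finset.Subset.refl _))]
  exact Iff.rfl

private theorem finTy_range3 {M : St ar V} (hf : FinTy M) (K : Type) [Finite K] :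
    (Set.range fun f : K → V => pull f M).Finite := by
  obtain ⟨N, ⟨e⟩⟩ := Finite.exists_equiv_fin K
  refine ((hf N).image (pull e)).subset ?_
  rintro _ ⟨f, rfl⟩
  refine ⟨pull (f ∘ e.symm) M, ⟨f ∘ e.symm, rfl⟩, ?_⟩
  funext i
  ext t
  have e1 : (f ∘ e.symm) ∘ (e ∘ t) = f ∘ t := by
    funext k
    simp
  show (f ∘ e.symm) ∘ (e ∘ t) ∈ M i ↔ f ∘ t ∈ M i
  rw [e1]

/-- finite parts are realised -/
private theorem real_QQ {M : St ar V} {P : St ar (X ⊕ Y) → Prop} {a : ℕ → ℕ → X → V}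
    {b : ℕ → Set (ℕ × ℕ) → ℕ → Y → V} (hf : FinTy M) (hab : ∀ n, Arr M P n (a n) (b n))
    {Z : Type} [Finite Z] (g : Z → Pts X Y) (K : Finset ℕ) (hK : ∀ z, idx (g z) ∈ K)
    (E : Set (ℕ × ℕ)) :
    ∃ (σ : ℕ → ℕ) (n : ℕ), StrictMonoOn σ (K : Set ℕ) ∧ (∀ k ∈ K, σ k < n) ∧
      pull g (QQ M a b E) = pull (fun z => ev (a n) (b n (im σ K E)) (rel σ (g z))) M := by
  classical
  set Θ : Set (St ar Z) := Set.range fun f : Z → V => pull f M with hΘ
  have hΘf : Finite Θ := finTy_range3 hf Z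
  set f : (ℕ → ℕ) → ℕ → Z → V := fun σ n z => ev (a n) (b n (im σ K E)) (rel σ (g z)) with hfd
  have h1 : ∀ σ : ℕ → ℕ, ∃ θ : Θ, ∀ᶠ n in (UF : Filter ℕ), pull (f σ n) M = θ.1 := by
    intro σ
    by_contra hcon
    push Not at hcon
    have h2 : ∀ θ : Θ, ∀ᶠ n in (UF : Filter ℕ), ¬ pull (f σ n) M = θ.1 := fun θ =>
      Ultrafilter.eventually_not.2 (by simpa using hcon θ)
    have h3 : ∀ᶠ n in (UF : Filter ℕ), ∀ θ : Θ, ¬ pull (f σ n) M = θ.1 :=
      Filter.eventually_all.2 h2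
    obtain ⟨n, hn⟩ := h3.exists
    exact hn ⟨pull (f σ n) M, ⟨f σ n, rfl⟩⟩ rfl
  obtain ⟨θ, hθ⟩ := Lm_fin (fun (θ : Θ) σ => ∀ᶠ n in (UF : Filter ℕ), pull (f σ n) M = θ.1) h1
    (srt K) id
  have hq : pull g (QQ M a b E) = θ.1 := by
    funext i
    ext t
    have ht : ind (g ∘ t) ⊆ K := by
      intro k hk
      obtain ⟨j, _, rfl⟩ := Finset.mem_image.1 hk
      exact hK _
    show g ∘ t ∈ QQ M a b E i ↔ t ∈ θ.1 i
    rw [mem_QQ hab ht]
    have h4 : Lm (srt K) id (fun σ => Pn M a b K E i (g ∘ t) σ ↔ t ∈ θ.1 i) := by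
      refine Lm_mono ?_ hθ
      intro σ hσ
      have h5 : ∀ᶠ n in (UF : Filter ℕ),
          (rel σ ∘ (g ∘ t) ∈ pull (ev (a n) (b n (im σ K E))) M i ↔ t ∈ θ.1 i) := by
        refine hσ.mono fun n hn => ?_
        rw [← hn]
        exact Iff.rfl
      show (∀ᶠ n in (UF : Filter ℕ), rel σ ∘ (g ∘ t) ∈ pull (ev (a n) (b n (im σ K E))) M i) ↔
        t ∈ θ.1 i
      rw [Filter.eventually_congr h5]
      exact Filter.eventually_const
    by_cases hc : t ∈ θ.1 i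
    · refine iff_of_true ?_ hc
      exact Lm_mono (fun σ hσ => hσ.2 hc) h4
    · refine iff_of_false ?_ hc
      refine Lm_not.1 ?_
      exact Lm_mono (fun σ hσ hp => hc (hσ.1 hp)) h4
  have hs : Lm (srt K) id (fun τ => StrictMonoOn τ (K : Set ℕ)) := by
    refine Lm_mono ?_ (Lm_strictMono (srt_lt K) id)
    intro τ hτ x hx y hy hxy
    exact hτ (mem_srt.2 hx) (mem_srt.2 hy) hxy
  obtain ⟨σ, hσ1, hσ2⟩ := Lm_exists (Lm_and.2 ⟨hs, hθ⟩)
  obtain ⟨n, hn1, hn2⟩ := (hσ2.and (eventually_gt (K.sup σ))).exists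
  refine ⟨σ, n, hσ1, fun k hk => lt_of_le_of_lt (Finset.le_sup (f := σ) hk) hn2, ?_⟩
  rw [hq, ← hn1]

theorem exists_canon [Finite X] [Finite Y] {M : St ar V} (hf : FinTy M) {P : St ar (X ⊕ Y) → Prop}
    (h : ∀ n, ∃ a b, Arr M P n a b) : ∃ Q, Canon M P Q := by
  classical
  choose a b hab using h
  refine ⟨QQ M a b, ?_, ?_, ?_⟩
  · intro E E' σ i t hσ hE
    have hσ' : StrictMonoOn σ (ind t : Set ℕ) := by
      refine hσ.mono ?_
      intro m hm
      obtain ⟨k, _, rfl⟩ := Finset.mem_image.1 hm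
      exact ⟨k, rfl⟩
    set F : Set (ℕ × ℕ) := {q | (σ q.1, σ q.2) ∈ E'} with hF
    have h1 : t ∈ QQ M a b E i ↔ t ∈ QQ M a b F i := by
      rw [mem_QQ hab (Finset.Subset.refl _), mem_QQ hab (Finset.Subset.refl _)]
      exact Lm_equiv (fun τ hτ => Pn_congr hab (Finset.Subset.refl _) (Finset.Subset.refl _) hτ hτ hE)
        id
    have h2 : ind (rel σ ∘ t) = (ind t).image σ := by
      ext m
      simp only [ind, Finset.mem_image, Finset.mem_univ, true_and]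
      constructor
      · rintro ⟨k, rfl⟩
        exact ⟨idx (t k), ⟨k, rfl⟩, (idx_rel σ (t k)).symm⟩
      · rintro ⟨_, ⟨k, rfl⟩, rfl⟩
        exact ⟨k, idx_rel σ (t k)⟩
    rw [h1]
    show Lm (srt (ind t)) id (Pn M a b (ind t) F i t) ↔
      Lm (srt (ind (rel σ ∘ t))) id (Pn M a b (ind (rel σ ∘ t)) E' i (rel σ ∘ t))
    rw [h2, srt_image hσ']
    refine (Lm_map σ (srt_nodup _) ?_ (Pn_dep (Finset.Subset.refl _)) ?_ id id).symm
    · intro x hx y hy he
      exact hσ'.injOn (mem_srt.1 hx) (mem_srt.1 hy) he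
    · intro τ
      have h3 : rel τ ∘ (rel σ ∘ t) = rel (τ ∘ σ) ∘ t := by
        funext k
        show rel τ (rel σ (t k)) = rel (τ ∘ σ) (t k)
        rcases t k with p | p <;> rfl
      have h4 : im τ ((ind t).image σ) E' = im (τ ∘ σ) (ind t) F := by
        ext q
        constructor
        · rintro ⟨u, w, hu, hw, he, rfl⟩
          obtain ⟨u', hu', rfl⟩ := Finset.mem_image.1 hu
          obtain ⟨w', hw', rfl⟩ := Finset.mem_image.1 hw
          exact ⟨u', w', hu', hw', he, rfl⟩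
        · rintro ⟨u, w, hu, hw, he, rfl⟩
          exact ⟨σ u, σ w, Finset.mem_image_of_mem _ hu, Finset.mem_image_of_mem _ hw, he, rfl⟩
      show (∀ᶠ n in (UF : Filter ℕ),
          rel τ ∘ (rel σ ∘ t) ∈ pull (ev (a n) (b n (im τ ((ind t).image σ) E'))) M i) ↔
        ∀ᶠ n in (UF : Filter ℕ),
          rel (τ ∘ σ) ∘ t ∈ pull (ev (a n) (b n (im (τ ∘ σ) (ind t) F))) M i
      rw [h3, h4]
  · intro E i j
    obtain ⟨σ, n, hσ, hn, hq⟩ := real_QQ hf hab (pt i j : X ⊕ Y → Pts X Y) {i, j} (by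
      intro z
      rcases z with z | z
      · simp [pt, idx]
      · simp [pt, idx]) E
    rw [hq]
    have h1 : (fun z => ev (a n) (b n (im σ {i, j} E)) (rel σ (pt i j z))) =
        (Sum.elim (a n (σ i)) (b n (im σ {i, j} E) (σ j)) : X ⊕ Y → V) := by
      funext z
      rcases z with z | z <;> rfl
    rw [h1, (hab n).adj _ _ _ (hn i (by simp)) (hn j (by simp)), mem_im hσ.injOn (by simp) (by simp)]
  · intro E Z hZ
    have : Finite Z := hZ
    obtain ⟨σ, n, hσ, hn, hq⟩ := real_QQ hf hab (fun z : Z => z.1)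
      (hZ.toFinset.image idx) (by
        intro z
        exact Finset.mem_image_of_mem _ (hZ.mem_toFinset.2 z.2)) E
    refine ⟨fun p => ev (a n) (b n (im σ (hZ.toFinset.image idx) E)) (rel σ p), ?_⟩
    intro i t ht
    have h1 := congrFun hq i
    have h2 : (fun k => (⟨t k, ht k⟩ : Z)) ∈ pull (fun z : Z => z.1) (QQ M a b E) i ↔
        (fun k => (⟨t k, ht k⟩ : Z)) ∈ pull (fun z : Z =>
          ev (a n) (b n (im σ (hZ.toFinset.image idx) E)) (rel σ z.1)) M i := by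
      rw [h1]
    exact h2

end Pool.Agent.Lib.MP_4fb322_lc_nip
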