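import Pool.Agent.Lib.MP_4fb322_lc_nip.Defs

/-! Row N3a: iterated limits along the nonprincipal ultrafilter over a list of indices.

Proofs: induction on `l`, all `σ` at once; `Filter.hyperfilter ℕ` is an ultrafilter, contains no finite set
(`Set.Finite.compl_mem_hyperfilter`). -/

set_option autoImplicit false

namespace Pool.Agent.Lib.MP_4fb322_lc_nip

open Set Filter

/-- the nonprincipal ultrafilter -/
noncomputable abbrev UF : Ultrafilter ℕ := Filter.hyperfilter ℕ

/-- iterated limit: the value at the first entry of `l` is chosen first -/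
def Lm : List ℕ → (ℕ → ℕ) → ((ℕ → ℕ) → Prop) → Prop
  | [], σ, p => p σ
  | k :: l, σ, p => ∀ᶠ m in (UF : Filter ℕ), Lm l (Function.update σ k m) p

/-- `p` depends only on the values at the entries of `l` -/
def Dep (l : List ℕ) (p : (ℕ → ℕ) → Prop) : Prop :=
  ∀ σ σ' : ℕ → ℕ, (∀ k ∈ l, σ k = σ' k) → (p σ ↔ p σ')

theorem Lm_mono {l : List ℕ} {σ : ℕ → ℕ} {p q : (ℕ → ℕ) → Prop} (h : ∀ τ, p τ → q τ)
    (hp : Lm l σ p) : Lm l σ q := by
  induction l generalizing σ with
  | nil => exact h _ hp
  | cons k l ih =>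
    have hp' : ∀ᶠ m in (UF : Filter ℕ), Lm l (Function.update σ k m) p := hp
    exact hp'.mono fun m hm => ih hm

theorem Lm_congr {l : List ℕ} {σ : ℕ → ℕ} {p q : (ℕ → ℕ) → Prop} (h : ∀ τ, p τ ↔ q τ) :
    Lm l σ p ↔ Lm l σ q :=
  ⟨Lm_mono fun τ => (h τ).1, Lm_mono fun τ => (h τ).2⟩

theorem Lm_and {l : List ℕ} {σ : ℕ → ℕ} {p q : (ℕ → ℕ) → Prop} :
    Lm l σ (fun τ => p τ ∧ q τ) ↔ Lm l σ p ∧ Lm l σ q := by
  induction l generalizing σ with
  | nil => exact Iff.rfl
  | cons k l ih =>
    show (∀ᶠ m in (UF : Filter ℕ), Lm l (Function.update σ k m) (fun τ => p τ ∧ q τ)) ↔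
      (∀ᶠ m in (UF : Filter ℕ), Lm l (Function.update σ k m) p) ∧
        ∀ᶠ m in (UF : Filter ℕ), Lm l (Function.update σ k m) q
    rw [← Filter.eventually_and]
    exact Filter.eventually_congr (Filter.Eventually.of_forall fun m => ih)

theorem Lm_not {l : List ℕ} {σ : ℕ → ℕ} {p : (ℕ → ℕ) → Prop} :
    Lm l σ (fun τ => ¬ p τ) ↔ ¬ Lm l σ p := by
  induction l generalizing σ with
  | nil => exact Iff.rfl
  | cons k l ih =>
    show (∀ᶠ m in (UF : Filter ℕ), Lm l (Function.update σ k m) (fun τ => ¬ p τ)) ↔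
      ¬ ∀ᶠ m in (UF : Filter ℕ), Lm l (Function.update σ k m) p
    rw [← Ultrafilter.eventually_not]
    exact Filter.eventually_congr (Filter.Eventually.of_forall fun m => ih)

theorem Lm_exists {l : List ℕ} {σ : ℕ → ℕ} {p : (ℕ → ℕ) → Prop} (h : Lm l σ p) : ∃ τ, p τ := by
  induction l generalizing σ with
  | nil => exact ⟨σ, h⟩
  | cons k l ih =>
    have h' : ∀ᶠ m in (UF : Filter ℕ), Lm l (Function.update σ k m) p := h
    obtain ⟨m, hm⟩ := h'.exists
    exact ih hm

theorem Lm_const {l : List ℕ} {σ : ℕ → ℕ} {c : Prop} : Lm l σ (fun _ => c) ↔ c := by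
  induction l generalizing σ with
  | nil => exact Iff.rfl
  | cons k l ih =>
    show (∀ᶠ m in (UF : Filter ℕ), Lm l (Function.update σ k m) (fun _ => c)) ↔ c
    rw [Filter.eventually_congr (Filter.Eventually.of_forall fun m => ih)]
    exact Filter.eventually_const

/-- finitely many cases -/
theorem Lm_fin {Θ : Type} [Finite Θ] (p : Θ → (ℕ → ℕ) → Prop) (h : ∀ τ, ∃ θ, p θ τ) (l : List ℕ)
    (σ : ℕ → ℕ) : ∃ θ, Lm l σ (p θ) := by
  by_contra hcon
  have h1 : ∀ θ, Lm l σ (fun τ => ¬ p θ τ) := fun θ => Lm_not.2 fun hθ => hcon ⟨θ, hθ⟩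
  have h2 : ∀ s : Set Θ, s.Finite → Lm l σ (fun τ => ∀ θ ∈ s, ¬ p θ τ) := by
    intro s hs
    induction s, hs using Set.Finite.induction_on with
    | empty => exact (Lm_congr (q := fun _ => True) (by intro τ; simp)).2 (Lm_const.2 trivial)
    | @insert θ s _ _ ih =>
      refine (Lm_congr (q := fun τ => ¬ p θ τ ∧ ∀ θ ∈ s, ¬ p θ τ) ?_).2 (Lm_and.2 ⟨h1 θ, ih⟩)
      intro τ
      simp
  obtain ⟨τ, hτ⟩ := Lm_exists (h2 Set.univ Set.finite_univ)
  obtain ⟨θ, hθ⟩ := h τ
  exact hτ θ (Set.mem_univ _) hθ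

/-- independence of the start -/
theorem Lm_base {l : List ℕ} {p : (ℕ → ℕ) → Prop} (hp : Dep l p) (σ σ' : ℕ → ℕ) :
    Lm l σ p ↔ Lm l σ' p := by
  have key : ∀ (l' : List ℕ) (σ σ' : ℕ → ℕ), (∀ k ∈ l, k ∉ l' → σ k = σ' k) →
      (Lm l' σ p ↔ Lm l' σ' p) := by
    intro l'
    induction l' with
    | nil =>
      intro σ σ' h
      exact hp σ σ' fun k hk => h k hk (by simp)
    | cons a l' ih =>
      intro σ σ' h
      refine Filter.eventually_congr (Filter.Eventually.of_forall fun m => ih _ _ ?_)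
      intro k hk hk'
      by_cases hka : k = a
      · subst hka
        simp
      · rw [Function.update_of_ne hka, Function.update_of_ne hka]
        exact h k hk (by simp [hka, hk'])
  exact key l σ σ' fun k hk hk' => absurd hk hk'

/-- superfluous entries can be dropped -/
theorem Lm_sub {l l' : List ℕ} (h : l.Sublist l') (hn : l'.Nodup) {p : (ℕ → ℕ) → Prop} (hp : Dep l p)
    (σ : ℕ → ℕ) : Lm l' σ p ↔ Lm l σ p := by
  -- a version with a fixed set of relevant entries
  have key : ∀ (l l' : List ℕ), l.Sublist l' → l'.Nodup → ∀ (s : Set ℕ) (p : (ℕ → ℕ) → Prop),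
      (∀ k ∈ l', k ∉ l → k ∉ s) →
      (∀ σ σ' : ℕ → ℕ, (∀ k ∈ s, σ k = σ' k) → (p σ ↔ p σ')) → ∀ σ : ℕ → ℕ,
      (Lm l' σ p ↔ Lm l σ p) := by
    intro l l' h
    induction h with
    | slnil =>
      intro _ s p _ _ σ
      exact Iff.rfl
    | @cons l₁ l₂ a h ih =>
      intro hn s p hs hd σ
      have hn' := List.nodup_cons.1 hn
      have hal : a ∉ l₁ := fun ha => hn'.1 (h.subset ha)
      have has : a ∉ s := hs a (by simp) hal
      have hs' : ∀ k ∈ l₂, k ∉ l₁ → k ∉ s := fun k hk hk' => hs k (by simp [hk]) hk'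
      have h1 : ∀ m, (Lm l₂ (Function.update σ a m) p ↔ Lm l₁ σ p) := by
        intro m
        rw [ih hn'.2 s p hs' hd]
        have h2 : ∀ (l₃ : List ℕ) (τ τ' : ℕ → ℕ), (∀ k, k ≠ a → τ k = τ' k) →
            (Lm l₃ τ p ↔ Lm l₃ τ' p) := by
          intro l₃
          induction l₃ with
          | nil =>
            intro τ τ' hτ
            exact hd τ τ' fun k hk => hτ k fun hka => has (hka ▸ hk)
          | cons b l₃ ih₃ =>
            intro τ τ' hτ
            refine Filter.eventually_congr (Filter.Eventually.of_forall fun m => ih₃ _ _ ?_)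
            intro k hk
            by_cases hkb : k = b
            · subst hkb
              simp
            · rw [Function.update_of_ne hkb, Function.update_of_ne hkb, hτ k hk]
        exact h2 l₁ _ _ fun k hk => Function.update_of_ne hk _ _
      show (∀ᶠ m in (UF : Filter ℕ), Lm l₂ (Function.update σ a m) p) ↔ Lm l₁ σ p
      rw [Filter.eventually_congr (Filter.Eventually.of_forall h1)]
      exact Filter.eventually_const
    | @cons_cons l₁ l₂ a h ih =>
      intro hn s p hs hd σ
      have hn' := List.nodup_cons.1 hn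
      refine Filter.eventually_congr (Filter.Eventually.of_forall fun m => ?_)
      -- entries of `l₂` outside `l₁` are not in `s`
      refine ih hn'.2 s p ?_ hd _
      intro k hk hk'
      refine hs k (by simp [hk]) ?_
      intro hk2
      rcases List.mem_cons.1 hk2 with rfl | hk2
      · exact hn'.1 hk
      · exact hk' hk2
  exact key l l' h hn {k | k ∈ l} p (fun k _ hk => hk) hp σ

/-- transport -/
theorem Lm_map {l : List ℕ} (f : ℕ → ℕ) (hn : l.Nodup) (hf : Set.InjOn f {k | k ∈ l})
    {p p' : (ℕ → ℕ) → Prop} (hp : Dep l p) (h : ∀ τ, p' τ ↔ p (τ ∘ f)) (σ σ' : ℕ → ℕ) :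
    Lm (l.map f) σ p' ↔ Lm l σ' p := by
  have key : ∀ (l₀ l : List ℕ), (∀ k ∈ l, k ∈ l₀) → l.Nodup → Set.InjOn f {k | k ∈ l₀} →
      ∀ (p p' : (ℕ → ℕ) → Prop), Dep l₀ p → (∀ τ, p' τ ↔ p (τ ∘ f)) → ∀ σ σ' : ℕ → ℕ,
        (∀ k ∈ l₀, k ∉ l → σ (f k) = σ' k) → (Lm (l.map f) σ p' ↔ Lm l σ' p) := by
    intro l₀ l
    induction l with
    | nil =>
      intro _ _ _ p p' hp h σ σ' hσ
      show p' σ ↔ p σ'
      rw [h]
      exact hp _ _ fun k hk => hσ k hk (by simp)
    | cons a l ih =>
      intro hl hn hf p p' hp h σ σ' hσ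
      have hn' := List.nodup_cons.1 hn
      refine Filter.eventually_congr (Filter.Eventually.of_forall fun m => ?_)
      refine ih (fun k hk => hl k (by simp [hk])) hn'.2 hf p p' hp h _ _ ?_
      intro k hk hk'
      by_cases hka : k = a
      · subst hka
        simp
      · have hfk : f k ≠ f a := fun he => hka (hf hk (hl a (by simp)) he)
        rw [Function.update_of_ne hfk, Function.update_of_ne hka]
        exact hσ k hk (by simp [hka, hk'])
  exact key l l (fun k hk => hk) hn hf p p' hp h σ σ' fun k hk hk' => absurd hk hk'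

/-- the chosen values are strictly increasing -/
theorem Lm_strictMono {l : List ℕ} (hl : l.Pairwise (· < ·)) (σ : ℕ → ℕ) :
    Lm l σ (fun τ => StrictMonoOn τ {k | k ∈ l}) := by
  have key : ∀ (l : List ℕ), l.Pairwise (· < ·) → ∀ (B : ℕ) (σ : ℕ → ℕ),
      Lm l σ (fun τ => StrictMonoOn τ {k | k ∈ l} ∧ (∀ k ∈ l, B ≤ τ k) ∧
        ∀ k, k ∉ l → τ k = σ k) := by
    intro l
    induction l with
    | nil =>
      intro _ B σ
      refine ⟨?_, ?_, ?_⟩
      · intro x hx
        simp at hx
      · intro k hk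
        simp at hk
      · intro k _
        rfl
    | cons a l ih =>
      intro hl B σ
      have hl' := List.pairwise_cons.1 hl
      have hev : ∀ᶠ m in (UF : Filter ℕ), B ≤ m := by
        have : {m | B ≤ m}ᶜ.Finite := by
          refine (Set.finite_lt_nat B).subset ?_
          intro m hm
          simpa using hm
        have h2 := this.compl_mem_hyperfilter
        rw [compl_compl] at h2
        exact h2
      refine hev.mono fun m hm => ?_
      refine Lm_mono ?_ (ih hl'.2 (m + 1) (Function.update σ a m))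
      rintro τ ⟨h1, h2, h3⟩
      have ha : a ∉ l := fun ha => lt_irrefl _ (hl'.1 a ha)
      have hτa : τ a = m := by rw [h3 a ha, Function.update_self]
      refine ⟨?_, ?_, ?_⟩
      · intro x hx y hy hxy
        rcases List.mem_cons.1 hx with rfl | hx
        · rcases List.mem_cons.1 hy with rfl | hy
          · exact absurd hxy (lt_irrefl _)
          · have := h2 y hy
            omega
        · rcases List.mem_cons.1 hy with hya | hy
          · have hax : a < x := hl'.1 x hx
            rw [hya] at hxy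
            exact absurd hax (lt_asymm hxy)
          · exact h1 hx hy hxy
      · intro k hk
        rcases List.mem_cons.1 hk with rfl | hk
        · omega
        · have := h2 k hk
          omega
      · intro k hk
        have hka : k ≠ a := fun h => hk (by simp [h])
        rw [h3 k fun h => hk (by simp [h]), Function.update_of_ne hka]
  exact Lm_mono (fun τ hτ => hτ.1) (key l hl 0 σ)

end Pool.Agent.Lib.MP_4fb322_lc_nip
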