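import Mathlib

/-!
# Dense locally sparse bipartite graphs

A bipartite graph on `ℕ + ℕ` is a finite set `E` of pairs.  `LSp g E`: every nonempty set `W` of
at most `g` vertices spans less than `|W|` edges.  `exists_dense`: for all `g`, `K` there are
`n > 0` and such a graph `E ⊆ [n] × [n]` with `(K n) ^ (K n) < 2 ^ |E|`.
-/

set_option autoImplicit false

namespace Pool.Nip

open Finset

/-- The edges spanned by the vertex set `W`. -/
def sp (E : Finset (ℕ × ℕ)) (W : Finset (ℕ ⊕ ℕ)) : Finset (ℕ × ℕ) :=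
  E.filter (fun e => Sum.inl e.1 ∈ W ∧ Sum.inr e.2 ∈ W)

/-- Every nonempty set `W` of at most `g` vertices spans less than `|W|` edges. -/
def LSp (g : ℕ) (E : Finset (ℕ × ℕ)) : Prop :=
  ∀ W : Finset (ℕ ⊕ ℕ), W.Nonempty → W.card ≤ g → (sp E W).card < W.card

/-- The neighbours of a vertex. -/
def nb (E : Finset (ℕ × ℕ)) : ℕ ⊕ ℕ → Finset (ℕ ⊕ ℕ)
  | Sum.inl a => (E.filter (fun e => e.1 = a)).image (fun e => Sum.inr e.2)
  | Sum.inr b => (E.filter (fun e => e.2 = b)).image (fun e => Sum.inl e.1)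

/-- The ball of radius `i` around `x`. -/
def ball (E : Finset (ℕ × ℕ)) (x : ℕ ⊕ ℕ) : ℕ → Finset (ℕ ⊕ ℕ)
  | 0 => {x}
  | i + 1 => ball E x i ∪ (ball E x i).biUnion (nb E)

/-- The part of the ball of radius `i` reached inside `W`. -/
def ballIn (E : Finset (ℕ × ℕ)) (W : Finset (ℕ ⊕ ℕ)) (x : ℕ ⊕ ℕ) : ℕ → Finset (ℕ ⊕ ℕ)
  | 0 => {x}
  | i + 1 => ballIn E W x i ∪ ((ballIn E W x i).biUnion (nb E)) ∩ W

lemma ball_mono (E : Finset (ℕ × ℕ)) (x : ℕ ⊕ ℕ) {i j : ℕ} (h : i ≤ j) :
    ball E x i ⊆ ball E x j := by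
  induction h with
  | refl => exact Subset.rfl
  | step _ ih => exact ih.trans subset_union_left

lemma ballIn_subset_ball (E : Finset (ℕ × ℕ)) (W : Finset (ℕ ⊕ ℕ)) (x : ℕ ⊕ ℕ) (i : ℕ) :
    ballIn E W x i ⊆ ball E x i := by
  induction i with
  | zero => exact Subset.rfl
  | succ i ih =>
    refine union_subset_union ih ?_
    exact inter_subset_left.trans (biUnion_subset_biUnion_of_subset_left _ ih)

lemma ballIn_subset (E : Finset (ℕ × ℕ)) {W : Finset (ℕ ⊕ ℕ)} {x : ℕ ⊕ ℕ} (hx : x ∈ W)
    (i : ℕ) : ballIn E W x i ⊆ W := by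
  induction i with
  | zero => simpa [ballIn] using hx
  | succ i ih => exact union_subset ih inter_subset_right

lemma mem_ballIn_self (E : Finset (ℕ × ℕ)) (W : Finset (ℕ ⊕ ℕ)) (x : ℕ ⊕ ℕ) (i : ℕ) :
    x ∈ ballIn E W x i := by
  induction i with
  | zero => simp [ballIn]
  | succ i ih => exact mem_union_left _ ih

/-- Some ball inside `W` is closed. -/
lemma exists_closed (E : Finset (ℕ × ℕ)) {W : Finset (ℕ ⊕ ℕ)} {x : ℕ ⊕ ℕ} (hx : x ∈ W) {g : ℕ}
    (hg : W.card ≤ g) : ∃ i ≤ g, ballIn E W x (i + 1) = ballIn E W x i := by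
  by_contra hcon
  push Not at hcon
  have key : ∀ i ≤ g, i + 1 ≤ (ballIn E W x i).card := by
    intro i
    induction i with
    | zero => intro _; simp [ballIn]
    | succ i ih =>
      intro hi
      have h1 := ih (by omega)
      have h2 : ballIn E W x i ⊂ ballIn E W x (i + 1) :=
        ssubset_of_subset_of_ne subset_union_left (hcon i (by omega)).symm
      have := card_lt_card h2
      omega
  have h1 := key g le_rfl
  have h2 := card_le_card (ballIn_subset E hx g)
  omega

/-- A vertex set with almost one edge per vertex is connected. -/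
lemma mem_ball_of_card (E : Finset (ℕ × ℕ)) {g : ℕ} (hE : LSp g E) {W : Finset (ℕ ⊕ ℕ)}
    (hW : W.card ≤ g) {x y : ℕ ⊕ ℕ} (hx : x ∈ W) (hy : y ∈ W)
    (hc : W.card ≤ (sp E W).card + 1) : y ∈ ball E x g := by
  obtain ⟨i, hi, hcl⟩ := exists_closed E hx hW
  set S := ballIn E W x i with hS
  have hSW : S ⊆ W := ballIn_subset E hx i
  have hclosed : ∀ u ∈ S, ∀ v ∈ nb E u, v ∈ W → v ∈ S := by
    intro u hu v hv hvW
    have : v ∈ ballIn E W x (i + 1) :=
      mem_union_right _ (mem_inter.2 ⟨mem_biUnion.2 ⟨u, hu, hv⟩, hvW⟩)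
    rwa [hcl] at this
  by_contra hny
  have hyS : y ∉ S := fun h => hny (ball_mono E x hi (ballIn_subset_ball E W x i h))
  have hsub : sp E W ⊆ sp E S ∪ sp E (W \ S) := by
    intro e he
    obtain ⟨heE, h1, h2⟩ := mem_filter.1 he
    by_cases h1S : (Sum.inl e.1 : ℕ ⊕ ℕ) ∈ S
    · refine mem_union_left _ (mem_filter.2 ⟨heE, h1S, hclosed _ h1S _ ?_ h2⟩)
      exact mem_image.2 ⟨e, mem_filter.2 ⟨heE, rfl⟩, rfl⟩
    · by_cases h2S : (Sum.inr e.2 : ℕ ⊕ ℕ) ∈ S
      · exact absurd (hclosed _ h2S _ (mem_image.2 ⟨e, mem_filter.2 ⟨heE, rfl⟩, rfl⟩) h1) h1S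
      · exact mem_union_right _ (mem_filter.2 ⟨heE, mem_sdiff.2 ⟨h1, h1S⟩,
          mem_sdiff.2 ⟨h2, h2S⟩⟩)
  have hSne : S.Nonempty := ⟨x, mem_ballIn_self E W x i⟩
  have h1 := hE S hSne ((card_le_card hSW).trans hW)
  have h2 := hE (W \ S) ⟨y, mem_sdiff.2 ⟨hy, hyS⟩⟩ ((card_le_card sdiff_subset).trans hW)
  have h3 := (card_le_card hsub).trans (card_union_le _ _)
  have h4 := card_sdiff_add_card_eq_card hSW
  omega

lemma card_ball_le (E : Finset (ℕ × ℕ)) {D : ℕ} (h : ∀ v, (nb E v).card ≤ D) (x : ℕ ⊕ ℕ)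
    (i : ℕ) : (ball E x i).card ≤ (D + 1) ^ i := by
  induction i with
  | zero => simp [ball]
  | succ i ih =>
    have h1 : ((ball E x i).biUnion (nb E)).card ≤ (ball E x i).card * D :=
      card_biUnion_le_card_mul _ _ _ (fun v _ => h v)
    calc (ball E x (i + 1)).card ≤ (ball E x i).card + ((ball E x i).biUnion (nb E)).card :=
          card_union_le _ _
      _ ≤ (ball E x i).card + (ball E x i).card * D := by omega
      _ = (ball E x i).card * (D + 1) := by ring
      _ ≤ (D + 1) ^ i * (D + 1) := Nat.mul_le_mul_right _ ih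
      _ = (D + 1) ^ (i + 1) := (pow_succ _ _).symm

/-- The degrees. -/
def dgA (E : Finset (ℕ × ℕ)) (a : ℕ) : ℕ := (E.filter (fun e => e.1 = a)).card
/-- The degrees. -/
def dgB (E : Finset (ℕ × ℕ)) (b : ℕ) : ℕ := (E.filter (fun e => e.2 = b)).card

lemma card_nb_le (E : Finset (ℕ × ℕ)) {D : ℕ} (hA : ∀ a, dgA E a ≤ D) (hB : ∀ b, dgB E b ≤ D)
    (v : ℕ ⊕ ℕ) : (nb E v).card ≤ D := by
  rcases v with a | b
  · exact card_image_le.trans (hA a)
  · exact card_image_le.trans (hB b)

theorem exists_greedy (g n D : ℕ) (hn : 2 * (D + 1) ^ (g + 1) ≤ n) :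
    ∃ E : Finset (ℕ × ℕ), E ⊆ range n ×ˢ range n ∧ LSp g E ∧ n * D ≤ 2 * E.card := by
  classical
  let FF : Finset (Finset (ℕ × ℕ)) := (range n ×ˢ range n).powerset.filter
    (fun E => LSp g E ∧ (∀ a, dgA E a ≤ D) ∧ ∀ b, dgB E b ≤ D)
  have hne : FF.Nonempty := by
    refine ⟨∅, mem_filter.2 ⟨mem_powerset.2 (empty_subset _), ?_, ?_, ?_⟩⟩
    · intro W hW _
      simpa [sp] using hW
    · intro a
      simp [dgA]
    · intro b
      simp [dgB]
  obtain ⟨E, hEF, hmax⟩ := exists_max_image FF Finset.card hne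
  obtain ⟨hEp, hL, hA, hB⟩ := mem_filter.1 hEF
  have hEsub := mem_powerset.1 hEp
  refine ⟨E, hEsub, hL, ?_⟩
  have hsumA : E.card = ∑ a ∈ range n, dgA E a :=
    card_eq_sum_card_fiberwise (fun e he => (mem_product.1 (hEsub he)).1)
  have hsumB : E.card = ∑ b ∈ range n, dgB E b :=
    card_eq_sum_card_fiberwise (fun e he => (mem_product.1 (hEsub he)).2)
  by_cases hall : ∀ a ∈ range n, dgA E a = D
  · rw [sum_congr rfl hall] at hsumA
    simp at hsumA
    rw [hsumA]
    omega
  push Not at hall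
  obtain ⟨a, han, haD⟩ := hall
  have haD' : dgA E a < D := lt_of_le_of_ne (hA a) haD
  have hbad : ((range n).filter (fun b => dgB E b < D)).image (Sum.inr : ℕ → ℕ ⊕ ℕ) ⊆
      ball E (Sum.inl a) (g + 1) := by
    intro v hv
    obtain ⟨b, hb, rfl⟩ := mem_image.1 hv
    obtain ⟨hbn, hbD⟩ := mem_filter.1 hb
    by_cases hab : (a, b) ∈ E
    · refine ball_mono E _ (show 1 ≤ g + 1 by omega) ?_
      refine mem_union_right _ (mem_biUnion.2 ⟨Sum.inl a, by simp [ball], ?_⟩)
      exact mem_image.2 ⟨(a, b), mem_filter.2 ⟨hab, rfl⟩, rfl⟩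
    · have hcard : (insert (a, b) E).card = E.card + 1 := card_insert_of_notMem hab
      have hnot : insert (a, b) E ∉ FF := by
        intro h
        have := hmax _ h
        omega
      have hnL : ¬ LSp g (insert (a, b) E) := by
        intro hL'
        apply hnot
        refine mem_filter.2 ⟨mem_powerset.2 (insert_subset (mem_product.2 ⟨han, hbn⟩) hEsub),
          hL', ?_, ?_⟩
        · intro a'
          by_cases h : a = a'
          · subst h
            have : (insert (a, b) E).filter (fun e => e.1 = a) ⊆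
                insert (a, b) (E.filter (fun e => e.1 = a)) := by
              intro e he
              rw [mem_filter, mem_insert] at he
              rw [mem_insert, mem_filter]
              tauto
            have := (card_le_card this).trans (card_insert_le _ _)
            unfold dgA at *
            omega
          · have : (insert (a, b) E).filter (fun e => e.1 = a') =
                E.filter (fun e => e.1 = a') := by
              ext e
              simp only [mem_filter, mem_insert]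
              constructor
              · rintro ⟨rfl | h1, h2⟩
                · exact absurd h2 h
                · exact ⟨h1, h2⟩
              · rintro ⟨h1, h2⟩
                exact ⟨Or.inr h1, h2⟩
            unfold dgA
            rw [this]
            exact hA a'
        · intro b'
          by_cases h : b = b'
          · subst h
            have : (insert (a, b) E).filter (fun e => e.2 = b) ⊆
                insert (a, b) (E.filter (fun e => e.2 = b)) := by
              intro e he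
              rw [mem_filter, mem_insert] at he
              rw [mem_insert, mem_filter]
              tauto
            have := (card_le_card this).trans (card_insert_le _ _)
            unfold dgB at *
            omega
          · have : (insert (a, b) E).filter (fun e => e.2 = b') =
                E.filter (fun e => e.2 = b') := by
              ext e
              simp only [mem_filter, mem_insert]
              constructor
              · rintro ⟨rfl | h1, h2⟩
                · exact absurd h2 h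
                · exact ⟨h1, h2⟩
              · rintro ⟨h1, h2⟩
                exact ⟨Or.inr h1, h2⟩
            unfold dgB
            rw [this]
            exact hB b'
      unfold LSp at hnL
      push Not at hnL
      obtain ⟨W, hWne, hWg, hWc⟩ := hnL
      by_cases hmem : (Sum.inl a : ℕ ⊕ ℕ) ∈ W ∧ (Sum.inr b : ℕ ⊕ ℕ) ∈ W
      · have hsub : sp (insert (a, b) E) W ⊆ insert (a, b) (sp E W) := by
          intro e he
          obtain ⟨h1, h2⟩ := mem_filter.1 he
          rcases mem_insert.1 h1 with rfl | h1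
          · exact mem_insert_self _ _
          · exact mem_insert_of_mem (mem_filter.2 ⟨h1, h2⟩)
        have := (card_le_card hsub).trans (card_insert_le _ _)
        exact ball_mono E _ (Nat.le_succ g)
          (mem_ball_of_card E hL hWg hmem.1 hmem.2 (by omega))
      · exfalso
        have hsub : sp (insert (a, b) E) W ⊆ sp E W := by
          intro e he
          obtain ⟨h1, h2⟩ := mem_filter.1 he
          rcases mem_insert.1 h1 with rfl | h1
          · exact absurd h2 hmem
          · exact mem_filter.2 ⟨h1, h2⟩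
        have h1 := card_le_card hsub
        have h2 := hL W hWne hWg
        omega
  have hcb : ((range n).filter (fun b => dgB E b < D)).card ≤ (D + 1) ^ (g + 1) := by
    rw [← card_image_of_injective _ (Sum.inr_injective : Function.Injective
      (Sum.inr : ℕ → ℕ ⊕ ℕ))]
    exact (card_le_card hbad).trans (card_ball_le E (card_nb_le E hA hB) _ _)
  have hgood : ((range n).filter (fun b => ¬ dgB E b < D)).card * D ≤ E.card := by
    rw [hsumB]
    calc ((range n).filter (fun b => ¬ dgB E b < D)).card * D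
        = ∑ b ∈ (range n).filter (fun b => ¬ dgB E b < D), D := by
          rw [sum_const, smul_eq_mul]
      _ ≤ ∑ b ∈ (range n).filter (fun b => ¬ dgB E b < D), dgB E b :=
          sum_le_sum (fun b hb => not_lt.1 (mem_filter.1 hb).2)
      _ ≤ ∑ b ∈ range n, dgB E b := sum_le_sum_of_subset (filter_subset _ _)
  have hsplit := card_filter_add_card_filter_not (s := range n) (fun b => dgB E b < D)
  rw [card_range] at hsplit
  have h2 : n ≤ 2 * ((range n).filter (fun b => ¬ dgB E b < D)).card := by omega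
  calc n * D ≤ (2 * ((range n).filter (fun b => ¬ dgB E b < D)).card) * D :=
        Nat.mul_le_mul_right _ h2
    _ = 2 * (((range n).filter (fun b => ¬ dgB E b < D)).card * D) := by ring
    _ ≤ 2 * E.card := by omega

/-- Dense locally sparse bipartite graphs. -/
theorem exists_dense (g K : ℕ) : ∃ (n : ℕ) (E : Finset (ℕ × ℕ)), 0 < n ∧
    E ⊆ range n ×ˢ range n ∧ LSp g E ∧ (K * n) ^ (K * n) < 2 ^ E.card := by
  -- choose `n = 2 ^ j`, `D = 2 K (j + K) + 2`
  obtain ⟨j, hj⟩ : ∃ j : ℕ, 2 * ((2 * K * (j + K) + 2) + 1) ^ (g + 1) ≤ 2 ^ j := by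
    set M : ℕ := 2 * K + 2 * K * K + 3 with hM
    have ht := tendsto_pow_const_div_const_pow_of_one_lt (g + 1) (r := (2 : ℝ)) (by norm_num)
    have hpos : (0 : ℝ) < 1 / (2 * (M : ℝ) ^ (g + 1)) := by positivity
    obtain ⟨j, hj1, hj2⟩ := ((ht.eventually_lt_const hpos).and
      (Filter.eventually_ge_atTop 1)).exists
    refine ⟨j, ?_⟩
    have h1 : (2 * K * (j + K) + 2) + 1 ≤ M * j := by
      rw [hM]
      nlinarith [Nat.zero_le K, Nat.zero_le (K * K)]
    have h2 : (2 : ℝ) * (M : ℝ) ^ (g + 1) * (j : ℝ) ^ (g + 1) ≤ 2 ^ j := by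
      rw [div_lt_div_iff₀ (by positivity) (by positivity)] at hj1
      linarith
    have h3 : 2 * (M * j) ^ (g + 1) ≤ 2 ^ j := by
      have : (2 : ℝ) * ((M : ℝ) * j) ^ (g + 1) ≤ 2 ^ j := by
        rw [mul_pow]
        linarith
      exact_mod_cast this
    exact (Nat.mul_le_mul_left 2 (Nat.pow_le_pow_left h1 _)).trans h3
  obtain ⟨E, hE1, hE2, hE3⟩ := exists_greedy g (2 ^ j) (2 * K * (j + K) + 2) hj
  refine ⟨2 ^ j, E, by positivity, hE1, hE2, ?_⟩
  have h1 : K * 2 ^ j ≤ 2 ^ (K + j) := by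
    rw [pow_add]
    exact Nat.mul_le_mul_right _ (Nat.lt_two_pow_self).le
  have h2 : (K * 2 ^ j) ^ (K * 2 ^ j) ≤ 2 ^ ((K + j) * (K * 2 ^ j)) :=
    calc (K * 2 ^ j) ^ (K * 2 ^ j) ≤ (2 ^ (K + j)) ^ (K * 2 ^ j) := Nat.pow_le_pow_left h1 _
      _ = 2 ^ ((K + j) * (K * 2 ^ j)) := (pow_mul _ _ _).symm
  refine lt_of_le_of_lt h2 (Nat.pow_lt_pow_right (by norm_num) ?_)
  have hp : 0 < 2 ^ j := by positivity
  have h3 : 2 ^ j * (2 * K * (j + K) + 2) = 2 * ((K + j) * (K * 2 ^ j) + 2 ^ j) := by ring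
  omega

/-- The graph used in the count. -/
theorem graph (d L c : ℕ) : ∃ (n : ℕ) (E : Finset (ℕ × ℕ)), 0 < n ∧ E ⊆ range n ×ˢ range n ∧
    (∀ A B : Finset ℕ, A.card + B.card ≤ L → (E ∩ (A ×ˢ B)).card ≤ A.card + B.card) ∧
    ((d * n) ^ 2 + 1) ^ (d * n + c) * (d * d * n) ^ (d * n) < 2 ^ E.card := by
  set K : ℕ := (d + 1) ^ 2 + 3 * d + 2 * c with hK
  obtain ⟨n, E, hn, hE1, hE2, hE3⟩ := exists_dense L K
  refine ⟨n, E, hn, hE1, ?_, ?_⟩
  · intro A B hAB
    have hWc : (A.image (Sum.inl : ℕ → ℕ ⊕ ℕ) ∪ B.image Sum.inr).card ≤ A.card + B.card :=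
      (card_union_le _ _).trans (Nat.add_le_add card_image_le card_image_le)
    rcases (A.image (Sum.inl : ℕ → ℕ ⊕ ℕ) ∪ B.image Sum.inr).eq_empty_or_nonempty with h | h
    · have hA : A = ∅ := by
        by_contra hA
        obtain ⟨a, ha⟩ := nonempty_iff_ne_empty.2 hA
        have : (Sum.inl a : ℕ ⊕ ℕ) ∈ A.image (Sum.inl : ℕ → ℕ ⊕ ℕ) ∪ B.image Sum.inr :=
          mem_union_left _ (mem_image_of_mem _ ha)
        rw [h] at this
        simp at this
      simp [hA]
    · have h1 := hE2 _ h (hWc.trans hAB)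
      have h2 : E ∩ (A ×ˢ B) ⊆ sp E (A.image (Sum.inl : ℕ → ℕ ⊕ ℕ) ∪ B.image Sum.inr) := by
        intro e he
        obtain ⟨h3, h4⟩ := mem_inter.1 he
        obtain ⟨h5, h6⟩ := mem_product.1 h4
        exact mem_filter.2 ⟨h3, mem_union_left _ (mem_image_of_mem _ h5),
          mem_union_right _ (mem_image_of_mem _ h6)⟩
      have h3 := card_le_card h2
      omega
  · refine lt_of_le_of_lt ?_ hE3
    have hb : 1 ≤ (d + 1) ^ 2 * n := Nat.mul_pos (by positivity) hn
    have h1 : (d * n) ^ 2 + 1 ≤ ((d + 1) ^ 2 * n) ^ 2 := by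
      have h11 : (d * n) ^ 2 + 1 ≤ ((d + 1) * n) ^ 2 := by nlinarith [Nat.zero_le (d * n * n)]
      have h12 : (d + 1) * n ≤ (d + 1) ^ 2 * n := by
        apply Nat.mul_le_mul_right
        nlinarith [Nat.zero_le d]
      exact h11.trans (Nat.pow_le_pow_left h12 2)
    have h2 : d * d * n ≤ (d + 1) ^ 2 * n := by
      apply Nat.mul_le_mul_right
      nlinarith [Nat.zero_le d]
    calc ((d * n) ^ 2 + 1) ^ (d * n + c) * (d * d * n) ^ (d * n)
        ≤ (((d + 1) ^ 2 * n) ^ 2) ^ (d * n + c) * ((d + 1) ^ 2 * n) ^ (d * n) :=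
          Nat.mul_le_mul (Nat.pow_le_pow_left h1 _) (Nat.pow_le_pow_left h2 _)
      _ = ((d + 1) ^ 2 * n) ^ (2 * (d * n + c) + d * n) := by rw [← pow_mul, ← pow_add]
      _ ≤ ((d + 1) ^ 2 * n) ^ (K * n) := by
          apply Nat.pow_le_pow_right hb
          rw [hK]
          nlinarith [Nat.mul_le_mul_left c hn, Nat.zero_le ((d + 1) ^ 2 * n)]
      _ ≤ (K * n) ^ (K * n) := by
          apply Nat.pow_le_pow_left
          apply Nat.mul_le_mul_right
          rw [hK]
          omega

end Pool.Nip
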