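import Pool.Agent.Lib.MP_4fb322_lc_nip.Defs
import Pool.Agent.Lib.MP_4fb322_lc_nip.N4g

/-! Row N4: dense locally sparse bipartite graphs (greedy), proof of helper72 in N4g. -/

set_option autoImplicit false

namespace Pool.Agent.Lib.MP_4fb322_lc_nip

open Set

theorem exists_graph (d L c : ℕ) : ∃ (n : ℕ) (E : Finset (ℕ × ℕ)), (∀ e ∈ E, e.1 < n ∧ e.2 < n) ∧
    Sp L E ∧ ((d * n) ^ 2 + 1) ^ (d * n + c) * (d * (d * n)) ^ (d * n) < 2 ^ E.card := by
  obtain ⟨n, E, _, hE, hsp, hc⟩ := Pool.Nip.graph d L c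
  refine ⟨n, E, fun e he => ?_, fun A B hAB => ?_, ?_⟩
  · have := hE he
    simpa [Finset.mem_product] using this
  · have h1 := hsp A B hAB
    have h2 : E.filter (fun e => e.1 ∈ A ∧ e.2 ∈ B) = E ∩ (A ×ˢ B) := by
      ext e
      simp [Finset.mem_filter, Finset.mem_product]
    rw [h2]
    exact h1
  · rw [← mul_assoc]
    exact hc

end Pool.Agent.Lib.MP_4fb322_lc_nip
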