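import Pool.Agent.Lib.MP_4fb322_lc_nip.N4

/-! Row N5: the labelled count. -/

set_option autoImplicit false

namespace Pool.Agent.Lib.MP_4fb322_lc_nip

open Set

variable {I : Type} {ar : I → ℕ} {V X Y : Type}

/-- the points of index `< n` -/
abbrev Dn (X Y : Type) (n : ℕ) : Type := (Fin n × X) ⊕ (Fin n × Y)

/-- the inclusion of the points of index `< n` -/
def emb (n : ℕ) : Dn X Y n → Pts X Y := Sum.map (Prod.map Fin.val id) (Prod.map Fin.val id)

lemma idx_emb_lt {n : ℕ} (p : Dn X Y n) : idx (emb n p) < n := by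
  rcases p with p | p
  · exact p.1.2
  · exact p.1.2

lemma exists_emb {n : ℕ} {p : Pts X Y} (h : idx p < n) : ∃ q : Dn X Y n, emb n q = p := by
  rcases p with ⟨u, x⟩ | ⟨w, y⟩
  · exact ⟨Sum.inl (⟨u, h⟩, x), rfl⟩
  · exact ⟨Sum.inr (⟨w, h⟩, y), rfl⟩

/-- the points of a left and a right tuple -/
def ptD {n : ℕ} (i j : Fin n) : X ⊕ Y → Dn X Y n := Sum.map (fun x => (i, x)) (fun y => (j, y))

lemma emb_ptD {n : ℕ} (i j : Fin n) (z : X ⊕ Y) : emb n (ptD i j z) = pt (i : ℕ) (j : ℕ) z := by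
  rcases z with x | y <;> rfl

lemma exists_enum {T : Type} (s : Finset T) (m : ℕ) (h : s.card ≤ m) :
    ∃ u : Fin m → Option T, ∀ a, a ∈ s ↔ ∃ k, u k = some a := by
  classical
  let e := s.equivFin.symm
  refine ⟨fun k => if h : (k : ℕ) < s.card then some (e ⟨k, h⟩ : T) else none, fun a => ?_⟩
  constructor
  · intro ha
    let j := e.symm ⟨a, ha⟩
    refine ⟨⟨j, lt_of_lt_of_le j.2 h⟩, ?_⟩
    have : (j : ℕ) < s.card := j.2
    simp only [this, dite_true, Fin.eta]
    simp [j]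
  · rintro ⟨k, hk⟩
    by_cases h' : (k : ℕ) < s.card
    · simp only [h', dite_true, Option.some.injEq] at hk
      rw [← hk]
      exact (e ⟨k, h'⟩).2
    · simp [h'] at hk

/-- the graph coded by a list of pairs -/
def codeSet {N m : ℕ} (u : Fin m → Option (Fin N × Fin N)) : Set (ℕ × ℕ) :=
  {q | ∃ k a, u k = some a ∧ ((a.1 : ℕ), (a.2 : ℕ)) = q}

lemma exists_code (N m : ℕ) (F : Finset (ℕ × ℕ)) (hF : ∀ e ∈ F, e.1 < N ∧ e.2 < N)
    (hm : F.card ≤ m) : ∃ u : Fin m → Option (Fin N × Fin N), codeSet u = (F : Set (ℕ × ℕ)) := by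
  classical
  let s : Finset (Fin N × Fin N) := Finset.univ.filter (fun a => ((a.1 : ℕ), (a.2 : ℕ)) ∈ F)
  have hs : s.card ≤ m := by
    refine le_trans (Finset.card_le_card_of_injOn (fun a => ((a.1 : ℕ), (a.2 : ℕ))) ?_ ?_) hm
    · intro a ha
      simpa [s] using ha
    · rintro ⟨a, b⟩ _ ⟨a', b'⟩ _ h
      simp only [Prod.mk.injEq] at h
      exact Prod.ext (Fin.ext h.1) (Fin.ext h.2)
  obtain ⟨u, hu⟩ := exists_enum s m hs
  refine ⟨u, ?_⟩
  ext q
  constructor
  · rintro ⟨k, a, hk, rfl⟩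
    have : a ∈ s := (hu a).2 ⟨k, hk⟩
    simpa [s] using this
  · intro hq
    have hq' : q ∈ F := hq
    have h := hF q hq'
    obtain ⟨k, hk⟩ := (hu (⟨q.1, h.1⟩, ⟨q.2, h.2⟩)).1 (by simp [s, hq'])
    exact ⟨k, _, hk, rfl⟩

/-- the compressed copy of an embedding -/
lemma compress [Finite X] [Finite Y] {M : St ar V} {P : St ar (X ⊕ Y) → Prop}
    {Q : Set (ℕ × ℕ) → St ar (Pts X Y)} (h : Canon M P Q) (c n : ℕ) (G F : Set (ℕ × ℕ))
    (hF : Loc F ((Nat.card X + Nat.card Y) * n) c) (f : Pts X Y → Pts X Y)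
    (hf : ∀ (i : I) (t : Fin (ar i) → Pts X Y), (∀ k, idx (t k) < n) →
          (t ∈ Q G i ↔ f ∘ t ∈ Q F i)) :
    ∃ (u : Fin ((Nat.card X + Nat.card Y) * n + c) →
        Option (Fin ((Nat.card X + Nat.card Y) * n) × Fin ((Nat.card X + Nat.card Y) * n)))
      (g : Dn X Y n → Dn X Y ((Nat.card X + Nat.card Y) * n)),
      ∀ i j : Fin n, (((i : ℕ), (j : ℕ)) ∈ G ↔
        P (pull (fun z => emb _ (g (ptD i j z))) (Q (codeSet u)))) := by
  classical
  have := Fintype.ofFinite X
  have := Fintype.ofFinite Y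
  set N := (Nat.card X + Nat.card Y) * n with hN
  have hcard : Fintype.card (Dn X Y n) = N := by
    rw [hN, Fintype.card_sum, Fintype.card_prod, Fintype.card_prod, Fintype.card_fin,
      Nat.card_eq_fintype_card, Nat.card_eq_fintype_card]
    ring
  let φ : Dn X Y n → Pts X Y := fun p => f (emb n p)
  let A : Finset ℕ := (Finset.univ.filter (fun p => (φ p).isLeft = true)).image (fun p => idx (φ p))
  let B : Finset ℕ :=
    (Finset.univ.filter (fun p => ¬ (φ p).isLeft = true)).image (fun p => idx (φ p))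
  have hAB : A.card + B.card ≤ N := by
    calc A.card + B.card ≤ (Finset.univ.filter (fun p => (φ p).isLeft = true)).card +
          (Finset.univ.filter (fun p => ¬ (φ p).isLeft = true)).card :=
          add_le_add Finset.card_image_le Finset.card_image_le
      _ = (Finset.univ : Finset (Dn X Y n)).card :=
          Finset.card_filter_add_card_filter_not _
      _ = N := hcard
  have hAm : ∀ p u x, φ p = Sum.inl (u, x) → u ∈ A := by
    intro p u x hp
    refine Finset.mem_image.2 ⟨p, ?_, ?_⟩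
    · simp [hp]
    · simp [hp, idx]
  have hBm : ∀ p w y, φ p = Sum.inr (w, y) → w ∈ B := by
    intro p w y hp
    refine Finset.mem_image.2 ⟨p, ?_, ?_⟩
    · simp [hp]
    · simp [hp, idx]
  have hABm : ∀ p, idx (φ p) ∈ A ∪ B := by
    intro p
    rcases hp : φ p with ⟨u, x⟩ | ⟨w, y⟩
    · exact Finset.mem_union_left _ (hAm p u x hp)
    · exact Finset.mem_union_right _ (hBm p w y hp)
  let r : ℕ → ℕ := fun v => ((A ∪ B).filter (· < v)).card
  have hrlt : ∀ v ∈ A ∪ B, r v < N := by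
    intro v hv
    refine lt_of_lt_of_le ?_ ((Finset.card_union_le A B).trans hAB)
    apply Finset.card_lt_card
    refine ⟨Finset.filter_subset _ _, fun hsub => ?_⟩
    have := Finset.mem_filter.1 (hsub hv)
    exact lt_irrefl _ this.2
  have hrm : ∀ v ∈ A ∪ B, ∀ v' ∈ A ∪ B, v < v' → r v < r v' := by
    intro v hv v' _ hvv
    apply Finset.card_lt_card
    refine ⟨fun x hx => ?_, fun hsub => ?_⟩
    · rw [Finset.mem_filter] at hx ⊢
      exact ⟨hx.1, hx.2.trans hvv⟩
    · have := Finset.mem_filter.1 (hsub (Finset.mem_filter.2 ⟨hv, hvv⟩))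
      exact lt_irrefl _ this.2
  have hrinj : ∀ v ∈ A ∪ B, ∀ v' ∈ A ∪ B, r v = r v' → v = v' := by
    intro v hv v' hv' he
    rcases lt_trichotomy v v' with hlt | heq | hgt
    · exact absurd he (hrm v hv v' hv' hlt).ne
    · exact heq
    · exact absurd he (hrm v' hv' v hv hgt).ne'
  let F' : Finset (ℕ × ℕ) := ((A ×ˢ B).filter (· ∈ F)).image (fun e => (r e.1, r e.2))
  have hF'c : F'.card ≤ N + c := Finset.card_image_le.trans (hF A B hAB)
  have hF'N : ∀ e ∈ F', e.1 < N ∧ e.2 < N := by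
    intro e he
    obtain ⟨e', he', rfl⟩ := Finset.mem_image.1 he
    have := Finset.mem_product.1 (Finset.mem_filter.1 he').1
    exact ⟨hrlt _ (Finset.mem_union_left _ this.1), hrlt _ (Finset.mem_union_right _ this.2)⟩
  obtain ⟨u, hu⟩ := exists_code N (N + c) F' hF'N hF'c
  have hidx : ∀ p : Dn X Y n, idx (rel r (φ p)) = r (idx (φ p)) := by
    intro p
    rcases hp : φ p with ⟨u, x⟩ | ⟨w, y⟩ <;> rfl
  have hg : ∀ p : Dn X Y n, ∃ q : Dn X Y N, emb N q = rel r (φ p) := by
    intro p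
    apply exists_emb
    rw [hidx]
    exact hrlt _ (hABm p)
  choose g hg using hg
  refine ⟨u, g, fun i j => ?_⟩
  rw [← h.adj G i j, hu]
  have : pull (pt (i : ℕ) (j : ℕ)) (Q G) = pull (fun z => emb N (g (ptD i j z))) (Q (F' : Set (ℕ × ℕ))) := by
    funext i'
    ext t
    have e1 : (t ∈ pull (pt (i : ℕ) (j : ℕ)) (Q G) i') ↔ (pt (i : ℕ) (j : ℕ)) ∘ t ∈ Q G i' := Iff.rfl
    have e2 : (t ∈ pull (fun z => emb N (g (ptD i j z))) (Q (F' : Set (ℕ × ℕ))) i') ↔
      (fun z => emb N (g (ptD i j z))) ∘ t ∈ Q (F' : Set (ℕ × ℕ)) i' := Iff.rfl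
    rw [e1, e2, hf i' _ ?_]
    · have e3 : f ∘ (pt (i : ℕ) (j : ℕ)) ∘ t = fun k => φ (ptD i j (t k)) := by
        funext k
        simp only [Function.comp, φ, emb_ptD]
      have e4 : ((fun z => emb N (g (ptD i j z))) ∘ t) = rel r ∘ (fun k => φ (ptD i j (t k))) := by
        funext k
        simp only [Function.comp, hg]
      rw [e3, e4]
      refine h.can F (F' : Set (ℕ × ℕ)) r i' _ ?_ ?_
      · rintro v ⟨k, rfl⟩ v' ⟨k', rfl⟩ hlt
        exact hrm _ (hABm _) _ (hABm _) hlt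
      · intro k k' a x b y hk hk'
        have ha := hAm _ _ _ hk
        have hb := hBm _ _ _ hk'
        constructor
        · intro hab
          exact Finset.mem_coe.2 (Finset.mem_image.2 ⟨(a, b), Finset.mem_filter.2
            ⟨Finset.mem_product.2 ⟨ha, hb⟩, hab⟩, rfl⟩)
        · intro hab
          obtain ⟨⟨a', b'⟩, he', heq⟩ := Finset.mem_image.1 (Finset.mem_coe.1 hab)
          obtain ⟨h1, h2⟩ := Finset.mem_filter.1 he'
          obtain ⟨h3, h4⟩ := Finset.mem_product.1 h1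
          simp only [Prod.mk.injEq] at heq
          have := hrinj _ (Finset.mem_union_left _ h3) _ (Finset.mem_union_left _ ha) heq.1
          have h5 := hrinj _ (Finset.mem_union_right _ h4) _ (Finset.mem_union_right _ hb) heq.2
          simp only at this h5
          rw [← this, ← h5]
          exact h2
    · intro k
      have : ((pt (i : ℕ) (j : ℕ)) ∘ t) k = emb n (ptD i j (t k)) := (emb_ptD i j (t k)).symm
      rw [this]
      exact idx_emb_lt _
  rw [this]

theorem count [Finite X] [Finite Y] {M : St ar V} {P : St ar (X ⊕ Y) → Prop}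
    {Q : Set (ℕ × ℕ) → St ar (Pts X Y)} (h : Canon M P Q) (L c : ℕ) :
    ∃ (n : ℕ) (G : Finset (ℕ × ℕ)), (∀ e ∈ G, e.1 < n ∧ e.2 < n) ∧ Sp L G ∧
      ∀ F : Set (ℕ × ℕ), Loc F ((Nat.card X + Nat.card Y) * n) c → ¬ ∃ f : Pts X Y → Pts X Y,
        ∀ (i : I) (t : Fin (ar i) → Pts X Y), (∀ k, idx (t k) < n) →
          (t ∈ Q (G : Set (ℕ × ℕ)) i ↔ f ∘ t ∈ Q F i) := by
  classical
  have := Fintype.ofFinite X
  have := Fintype.ofFinite Y
  obtain ⟨n, E, hE, hsp, hc⟩ := exists_graph (Nat.card X + Nat.card Y) L c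
  by_contra hcon
  push Not at hcon
  set d := Nat.card X + Nat.card Y with hd
  have key : ∀ G : {G // G ∈ E.powerset}, ∃ (u : Fin (d * n + c) → Option (Fin (d * n) × Fin (d * n)))
      (g : Dn X Y n → Dn X Y (d * n)),
      ∀ i j : Fin n, (((i : ℕ), (j : ℕ)) ∈ (G.1 : Set (ℕ × ℕ)) ↔
        P (pull (fun z => emb _ (g (ptD i j z))) (Q (codeSet u)))) := by
    rintro ⟨G, hG⟩
    have hG := Finset.mem_powerset.1 hG
    obtain ⟨F, hF, f, hf⟩ := hcon n G (fun e he => hE e (hG he)) (fun A B hAB =>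
      (Finset.card_le_card (Finset.filter_subset_filter _ hG)).trans (hsp A B hAB))
    exact compress h c n (G : Set (ℕ × ℕ)) F hF f hf
  choose u g hug using key
  have hinj : Function.Injective (fun G : {G // G ∈ E.powerset} => (u G, g G)) := by
    intro G G' he
    simp only [Prod.mk.injEq] at he
    apply Subtype.ext
    ext ⟨i, j⟩
    have hb : ∀ H : {G // G ∈ E.powerset}, (i, j) ∈ H.1 → i < n ∧ j < n := fun H hH =>
      hE _ (Finset.mem_powerset.1 H.2 hH)
    have hiff : ∀ (hi : i < n) (hj : j < n), ((i, j) ∈ G.1 ↔ (i, j) ∈ G'.1) := by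
      intro hi hj
      have h1 := hug G ⟨i, hi⟩ ⟨j, hj⟩
      have h2 := hug G' ⟨i, hi⟩ ⟨j, hj⟩
      rw [he.1, he.2] at h1
      simp only [Finset.mem_coe] at h1 h2
      exact h1.trans h2.symm
    constructor
    · intro hG
      exact (hiff (hb _ hG).1 (hb _ hG).2).1 hG
    · intro hG
      exact (hiff (hb _ hG).1 (hb _ hG).2).2 hG
  have hle := Fintype.card_le_of_injective _ hinj
  have hDn : ∀ m, Fintype.card (Dn X Y m) = d * m := by
    intro m
    rw [hd, Fintype.card_sum, Fintype.card_prod, Fintype.card_prod, Fintype.card_fin,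
      Nat.card_eq_fintype_card, Nat.card_eq_fintype_card]
    ring
  have e1 : Fintype.card {G // G ∈ E.powerset} = 2 ^ E.card := by
    rw [Fintype.card_coe, Finset.card_powerset]
  have e2 : Fintype.card ((Fin (d * n + c) → Option (Fin (d * n) × Fin (d * n))) ×
      (Dn X Y n → Dn X Y (d * n))) = ((d * n) ^ 2 + 1) ^ (d * n + c) * (d * (d * n)) ^ (d * n) := by
    rw [Fintype.card_prod, Fintype.card_fun, Fintype.card_option, Fintype.card_prod,
      Fintype.card_fin, Fintype.card_fin, Fintype.card_fun, hDn, hDn, sq]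
  rw [e1, e2] at hle
  exact absurd hc (not_lt.2 hle)

end Pool.Agent.Lib.MP_4fb322_lc_nip
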