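import Pool.Agent.Lib.MP_4fb322_lc_nip.N5

/-! Row N6: the block graph.

Proof. `d = card X + card Y`. Choose recursively `(n j, G j)` from `count h (L j) (c j)` with `s j = ∑ i < j, n i`,
`L j = ∑ i < j, d * n i` and `c j = (s j) ^ 2`. Let `E = {(s j + u, s j + w) | (u, w) ∈ G j}` and
`N j = {p | s j ≤ idx p < s (j + 1)}` (finite). `S = Q E`; `real` is `Canon.real`. Suppose `f` embeds `N j` in the union of the others.
Let `F` be the set of the edges of `E` which are not in block `j`. `Loc F (d * n j) (s j ^ 2)`: the edges of `F` in `A × B` are those in the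
blocks `< j` (both ends `< s j`: at most `(s j) ^ 2`) and those in the blocks `l > j`, for which `Sp (L l) (G l)`, `d * n j ≤ L l`, gives at most
`card (A in block l) + card (B in block l)`; the sum is at most `A.card + B.card`. The map `g p = f (rel (s j + ·) p)`
contradicts `count`: for `t` with indices `< n j`: `t ∈ Q (G j) ↔ rel (s j + ·) ∘ t ∈ Q E` by `Canon.can` (`σ = s j + ·`)
`↔ f ∘ rel (s j + ·) ∘ t ∈ Q E` (embedding) `↔ f ∘ rel (s j + ·) ∘ t ∈ Q F` by `Canon.can` with `σ = id` (the points are not in block `j`,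
so `E` and `F` agree on their indices). -/

set_option autoImplicit false

namespace Pool.Agent.Lib.MP_4fb322_lc_nip

open Set

variable {I : Type} {ar : I → ℕ} {V X Y : Type}

namespace N6

/-- the blocks are disjoint -/
theorem blk_unique {s : ℕ → ℕ} (hs : Monotone s) {l l' m : ℕ} (h1 : s l ≤ m) (h2 : m < s (l + 1))
    (h3 : s l' ≤ m) (h4 : m < s (l' + 1)) : l = l' := by
  rcases lt_trichotomy l l' with h | h | h
  · have := hs (Nat.succ_le_of_lt h)
    simp only [Nat.succ_eq_add_one] at this
    omega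
  · exact h
  · have := hs (Nat.succ_le_of_lt h)
    simp only [Nat.succ_eq_add_one] at this
    omega

open Classical in
/-- the sum over the blocks -/
theorem sum_blocks {s : ℕ → ℕ} (hs : Monotone s) (A T : Finset ℕ) :
    ∑ l ∈ T, (A.filter fun a => s l ≤ a ∧ a < s (l + 1)).card ≤ A.card := by
  rw [← Finset.card_biUnion]
  · exact Finset.card_le_card (Finset.biUnion_subset.2 fun l _ => Finset.filter_subset _ _)
  · intro l _ l' _ hne
    refine Finset.disjoint_left.2 ?_
    intro a ha ha'
    obtain ⟨_, h1, h2⟩ := Finset.mem_filter.1 ha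
    obtain ⟨_, h3, h4⟩ := Finset.mem_filter.1 ha'
    exact hne (blk_unique hs h1 h2 h3 h4)

/-- the local sparsity of the union of the other blocks -/
theorem loc_aux (s : ℕ → ℕ) (hs : Monotone s) (G : ℕ → Finset (ℕ × ℕ)) (d : ℕ)
    (hlt : ∀ j, ∀ e ∈ G j, s j + e.1 < s (j + 1) ∧ s j + e.2 < s (j + 1))
    (hsp : ∀ j, Sp (d * s j) (G j)) (j n : ℕ) (hn : s (j + 1) = s j + n) :
    Loc {e | ∃ l, l ≠ j ∧ ∃ u w, (u, w) ∈ G l ∧ e = (s l + u, s l + w)} (d * n) (s j ^ 2) := by
  classical
  intro A B hAB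
  set F : Set (ℕ × ℕ) := {e | ∃ l, l ≠ j ∧ ∃ u w, (u, w) ∈ G l ∧ e = (s l + u, s l + w)} with hF
  have hlev : ∀ e : ℕ × ℕ, ∃ l, e ∈ F → l ≠ j ∧ ∃ u w, (u, w) ∈ G l ∧ e = (s l + u, s l + w) := by
    intro e
    by_cases he : e ∈ F
    · obtain ⟨l, hl⟩ := he
      exact ⟨l, fun _ => hl⟩
    · exact ⟨0, fun h => absurd h he⟩
  choose lv hlv using hlev
  set T := (A ×ˢ B).filter (· ∈ F) with hT
  set T2 := T.filter fun e => j < lv e with hT2
  have hT1 : (T.filter fun e => ¬ j < lv e).card ≤ s j ^ 2 := by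
    have h1 : (T.filter fun e => ¬ j < lv e) ⊆ Finset.range (s j) ×ˢ Finset.range (s j) := by
      intro e he
      obtain ⟨heT, hej⟩ := Finset.mem_filter.1 he
      obtain ⟨hne, u, w, hG, heq⟩ := hlv e (Finset.mem_filter.1 heT).2
      obtain ⟨h2, h3⟩ := hlt _ _ hG
      have h4 : lv e < j := by omega
      have h5 : s (lv e + 1) ≤ s j := hs h4
      rw [heq, Finset.mem_product, Finset.mem_range, Finset.mem_range]
      simp only at h2 h3 ⊢
      omega
    refine (Finset.card_le_card h1).trans ?_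
    rw [Finset.card_product, Finset.card_range, sq]
  have hT2' : T2.card ≤ A.card + B.card := by
    rw [Finset.card_eq_sum_card_image lv T2]
    refine le_trans (Finset.sum_le_sum (g := fun l =>
      (A.filter fun a => s l ≤ a ∧ a < s (l + 1)).card +
        (B.filter fun a => s l ≤ a ∧ a < s (l + 1)).card) ?_) ?_
    · intro l hl
      obtain ⟨e₀, he₀, hel⟩ := Finset.mem_image.1 hl
      have hjl : j < l := by
        rw [← hel]
        exact (Finset.mem_filter.1 he₀).2
      have hsl : s (j + 1) ≤ s l := hs hjl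
      set A' := (A.filter fun a => s l ≤ a ∧ a < s (l + 1)).image (fun a => a - s l) with hA'
      set B' := (B.filter fun a => s l ≤ a ∧ a < s (l + 1)).image (fun a => a - s l) with hB'
      have hcA : A'.card ≤ (A.filter fun a => s l ≤ a ∧ a < s (l + 1)).card :=
        Finset.card_image_le
      have hcB : B'.card ≤ (B.filter fun a => s l ≤ a ∧ a < s (l + 1)).card :=
        Finset.card_image_le
      have hcA' : (A.filter fun a => s l ≤ a ∧ a < s (l + 1)).card ≤ A.card :=
        Finset.card_le_card (Finset.filter_subset _ _)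
      have hcB' : (B.filter fun a => s l ≤ a ∧ a < s (l + 1)).card ≤ B.card :=
        Finset.card_le_card (Finset.filter_subset _ _)
      have hdl : d * n ≤ d * s l := Nat.mul_le_mul_left d (by omega)
      have h1 := hsp l A' B' (by omega)
      refine le_trans (Finset.card_le_card_of_injOn (fun e => (e.1 - s l, e.2 - s l)) ?_ ?_)
        (h1.trans (Nat.add_le_add hcA hcB))
      · intro e he
        obtain ⟨heT2, hel'⟩ := Finset.mem_filter.1 (Finset.mem_coe.1 he)
        obtain ⟨heT, _⟩ := Finset.mem_filter.1 heT2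
        obtain ⟨heAB, heF⟩ := Finset.mem_filter.1 heT
        obtain ⟨heA, heB⟩ := Finset.mem_product.1 heAB
        obtain ⟨_, u, w, hG, heq⟩ := hlv e heF
        rw [hel'] at hG heq
        obtain ⟨h2, h3⟩ := hlt _ _ hG
        rw [heq] at heA heB
        simp only at h2 h3 heA heB
        refine Finset.mem_coe.2 (Finset.mem_filter.2 ⟨?_, ?_, ?_⟩)
        · rw [heq]
          simpa using hG
        · exact Finset.mem_image.2 ⟨s l + u, Finset.mem_filter.2 ⟨heA, by omega, h2⟩, by
            rw [heq]⟩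
        · exact Finset.mem_image.2 ⟨s l + w, Finset.mem_filter.2 ⟨heB, by omega, h3⟩, by
            rw [heq]⟩
      · intro e he e' he' hee
        have key : ∀ e : ℕ × ℕ, e ∈ ({x ∈ T2 | lv x = l} : Finset (ℕ × ℕ)) →
            s l ≤ e.1 ∧ s l ≤ e.2 := by
          intro e he
          obtain ⟨heT2, hel'⟩ := Finset.mem_filter.1 he
          obtain ⟨heT, _⟩ := Finset.mem_filter.1 heT2
          obtain ⟨_, u, w, hG, heq⟩ := hlv e (Finset.mem_filter.1 heT).2
          rw [hel'] at heq
          rw [heq]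
          simp
        obtain ⟨h2, h3⟩ := key e (Finset.mem_coe.1 he)
        obtain ⟨h4, h5⟩ := key e' (Finset.mem_coe.1 he')
        simp only [Prod.mk.injEq] at hee
        exact Prod.ext (by omega) (by omega)
    · rw [Finset.sum_add_distrib]
      exact Nat.add_le_add (sum_blocks hs A _) (sum_blocks hs B _)
  have hsplit : T2.card + (T.filter fun e => ¬ j < lv e).card = T.card :=
    Finset.card_filter_add_card_filter_not _
  have hfin : T.card ≤ d * n + s j ^ 2 := by omega
  convert hfin

theorem idx_rel (σ : ℕ → ℕ) (p : Pts X Y) : idx (rel σ p) = σ (idx p) := by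
  rcases p with ⟨u, x⟩ | ⟨w, y⟩ <;> rfl

theorem rel_id (p : Pts X Y) : rel id p = p := by
  rcases p with ⟨u, x⟩ | ⟨w, y⟩ <;> rfl

theorem finite_idx [Finite X] [Finite Y] (m : ℕ) : {p : Pts X Y | idx p < m}.Finite := by
  have h1 : (Sum.inl '' (Set.Iio m ×ˢ (Set.univ : Set X)) ∪
      Sum.inr '' (Set.Iio m ×ˢ (Set.univ : Set Y)) : Set (Pts X Y)).Finite :=
    (((Set.finite_Iio m).prod Set.finite_univ).image _).union
      (((Set.finite_Iio m).prod Set.finite_univ).image _)
  refine h1.subset ?_
  rintro (⟨u, x⟩ | ⟨w, y⟩) hp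
  · exact Or.inl ⟨(u, x), ⟨hp, Set.mem_univ _⟩, rfl⟩
  · exact Or.inr ⟨(w, y), ⟨hp, Set.mem_univ _⟩, rfl⟩

end N6

theorem exists_blocks_of_canon [Finite X] [Finite Y] {M : St ar V} {P : St ar (X ⊕ Y) → Prop}
    {Q : Set (ℕ × ℕ) → St ar (Pts X Y)} (h : Canon M P Q) :
    ∃ (S : St ar (Pts X Y)) (N : ℕ → Set (Pts X Y)), Blocks M S N := by
  classical
  set d := Nat.card X + Nat.card Y with hd
  choose nn GG hlt hsp hno using fun L c => count h L c
  obtain ⟨s, hs0, hs1⟩ : ∃ s : ℕ → ℕ, s 0 = 0 ∧
      ∀ j, s (j + 1) = s j + nn (d * s j) (s j ^ 2) :=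
    ⟨fun j => Nat.rec 0 (fun _ s => s + nn (d * s) (s ^ 2)) j, rfl, fun j => rfl⟩
  have hs : Monotone s := monotone_nat_of_le_succ fun j => by rw [hs1]; exact Nat.le_add_right _ _
  obtain ⟨n, hn⟩ : ∃ n : ℕ → ℕ, ∀ j, n j = nn (d * s j) (s j ^ 2) := ⟨_, fun j => rfl⟩
  obtain ⟨G, hG⟩ : ∃ G : ℕ → Finset (ℕ × ℕ), ∀ j, G j = GG (d * s j) (s j ^ 2) :=
    ⟨_, fun j => rfl⟩
  have hs1' : ∀ j, s (j + 1) = s j + n j := fun j => by rw [hs1, hn]
  have hlt' : ∀ j, ∀ e ∈ G j, e.1 < n j ∧ e.2 < n j := fun j e he => by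
    rw [hG] at he
    rw [hn]
    exact hlt _ _ e he
  have hlt'' : ∀ j, ∀ e ∈ G j, s j + e.1 < s (j + 1) ∧ s j + e.2 < s (j + 1) := fun j e he => by
    have := hlt' j e he
    rw [hs1']
    omega
  have hsp' : ∀ j, Sp (d * s j) (G j) := fun j => by
    rw [hG]
    exact hsp _ _
  have hno' : ∀ j (F : Set (ℕ × ℕ)), Loc F (d * n j) (s j ^ 2) → ¬ ∃ f : Pts X Y → Pts X Y,
        ∀ (i : I) (t : Fin (ar i) → Pts X Y), (∀ k, idx (t k) < n j) →
          (t ∈ Q (G j : Set (ℕ × ℕ)) i ↔ f ∘ t ∈ Q F i) := fun j F hF => by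
    rw [hn] at hF ⊢
    rw [hG]
    exact hno _ _ F hF
  clear hno hsp hlt hs1
  set E : Set (ℕ × ℕ) := {e | ∃ j u w, (u, w) ∈ G j ∧ e = (s j + u, s j + w)} with hE
  refine ⟨Q E, fun j => {p | s j ≤ idx p ∧ idx p < s (j + 1)}, ?_, ?_, ?_⟩
  · intro j
    exact (N6.finite_idx (s (j + 1))).subset fun p hp => hp.2
  · intro Z hZ
    exact h.real E Z hZ
  · rintro j ⟨f, hf1, hf2⟩
    set F : Set (ℕ × ℕ) :=
      {e | ∃ l, l ≠ j ∧ ∃ u w, (u, w) ∈ G l ∧ e = (s l + u, s l + w)} with hF
    have hloc : Loc F (d * n j) (s j ^ 2) :=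
      N6.loc_aux s hs G d hlt'' hsp' j (n j) (hs1' j)
    refine hno' j F hloc ⟨fun p => f (rel (fun m => s j + m) p), fun i t ht => ?_⟩
    have e1 : t ∈ Q (G j : Set (ℕ × ℕ)) i ↔ rel (fun m => s j + m) ∘ t ∈ Q E i := by
      refine h.can _ _ _ i t ?_ ?_
      · intro a _ b _ hab
        simpa using hab
      · intro k k' u x w y hk hk'
        have hu : u < n j := by
          have := ht k
          rw [hk] at this
          exact this
        have hw : w < n j := by
          have := ht k'
          rw [hk'] at this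
          exact this
        constructor
        · intro hmem
          exact ⟨j, u, w, hmem, rfl⟩
        · rintro ⟨l, u', w', hmem, heq⟩
          simp only [Prod.mk.injEq] at heq
          have h2 := hlt'' l _ hmem
          simp only at h2
          have hl : l = j := by
            refine N6.blk_unique hs (m := s j + u) ?_ ?_ ?_ ?_
            · omega
            · omega
            · omega
            · rw [hs1']; omega
          subst hl
          have hu' : u = u' := by omega
          have hw' : w = w' := by omega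
          rw [hu', hw']
          exact hmem
    have hNj : ∀ k, rel (fun m => s j + m) (t k) ∈
        {p : Pts X Y | s j ≤ idx p ∧ idx p < s (j + 1)} := by
      intro k
      change s j ≤ idx (rel (fun m => s j + m) (t k)) ∧
        idx (rel (fun m => s j + m) (t k)) < s (j + 1)
      rw [N6.idx_rel]
      have := ht k
      rw [hs1']
      omega
    have e2 := hf2 i (rel (fun m => s j + m) ∘ t) hNj
    have e3 : f ∘ rel (fun m => s j + m) ∘ t ∈ Q E i ↔
        f ∘ rel (fun m => s j + m) ∘ t ∈ Q F i := by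
      have h3 := h.can E F id i (f ∘ rel (fun m => s j + m) ∘ t)
        (fun a _ b _ hab => hab) ?_
      · have h4 : rel id ∘ (f ∘ rel (fun m => s j + m) ∘ t) = f ∘ rel (fun m => s j + m) ∘ t := by
          funext k
          exact N6.rel_id _
        rwa [h4] at h3
      · intro k k' u x w y hk hk'
        constructor
        · rintro ⟨l, u', w', hmem, heq⟩
          refine ⟨l, ?_, u', w', hmem, heq⟩
          rintro rfl
          obtain ⟨l', hne, hl'⟩ := hf1 _ (hNj k)
          have hk2 : f (rel (fun m => s l + m) (t k)) = Sum.inl (u, x) := hk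
          rw [hk2] at hl'
          have h5 : s l' ≤ u ∧ u < s (l' + 1) := hl'
          simp only [Prod.mk.injEq] at heq
          have h6 := hlt'' l _ hmem
          simp only at h6
          exact hne (N6.blk_unique hs (m := u) h5.1 h5.2 (by omega) (by omega))
        · rintro ⟨l, _, u', w', hmem, heq⟩
          exact ⟨l, u', w', hmem, heq⟩
    exact e1.trans (e2.trans e3)

end Pool.Agent.Lib.MP_4fb322_lc_nip
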