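import Pool.Agent.Lib.MP_4fb322_lc_nip.N2
import Pool.Agent.Lib.MP_4fb322_lc_nip.N3
import Pool.Agent.Lib.MP_4fb322_lc_nip.N6

/-! Row N7: the final statement for NIP. -/

set_option autoImplicit false

namespace Pool.Agent.Lib.MP_4fb322_lc_nip

open Set

variable {I : Type} {ar : I → ℕ} {V X Y : Type}

theorem exists_blocks [Finite X] [Finite Y] {M : St ar V} (hf : FinTy M)
    {P : St ar (X ⊕ Y) → Prop} (h : IP M X Y P) :
    ∃ (W : Type) (S : St ar W) (N : ℕ → Set W), Blocks M S N := by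
  obtain ⟨Q, hQ⟩ := exists_canon hf (exists_arr hf h)
  obtain ⟨S, N, hb⟩ := exists_blocks_of_canon hQ
  exact ⟨_, S, N, hb⟩

/-- tameness of all types of finite sets, or blocks -/
theorem tame_or_blocks {M : St ar V} (hf : FinTy M) {K : Type} [Finite K] (A : St ar K) :
    Tame {f : K → V | pull f M = A} ∨ ∃ (W : Type) (S : St ar W) (N : ℕ → Set W), Blocks M S N := by
  classical
  by_contra hcon
  obtain ⟨h1, h2⟩ := not_or.1 hcon
  unfold Tame at h1
  push Not at h1
  obtain ⟨B, hB⟩ := h1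
  apply h2
  let e : K → {k // k ∈ B} ⊕ {k // k ∉ B} := fun k =>
    if h : k ∈ B then Sum.inl ⟨k, h⟩ else Sum.inr ⟨k, h⟩
  refine exists_blocks (X := {k // k ∈ B}) (Y := {k // k ∉ B}) hf
    (P := fun S => pull e S = A) ?_
  intro n
  obtain ⟨F, G, hFG⟩ := hB n
  refine ⟨fun j x => F j x.1, fun S y => G S y.1, fun j S => ?_⟩
  rw [← hFG j S]
  have : (Sum.elim (fun x : {k // k ∈ B} => F j x.1) (fun y : {k // k ∉ B} => G S y.1)) ∘ e =
      mrg B (F j) (G S) := by
    funext k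
    by_cases h : k ∈ B
    · simp [e, mrg, h]
    · simp [e, mrg, h]
  have h3 : pull e (pull (Sum.elim (fun x : {k // k ∈ B} => F j x.1)
      (fun y : {k // k ∉ B} => G S y.1)) M) = pull (mrg B (F j) (G S)) M := by
    rw [← this]; rfl
  simp only [h3, Set.mem_ofPred_eq]

end Pool.Agent.Lib.MP_4fb322_lc_nip
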