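import Pool.Agent.Lib.MP_4fb322_lc_nip.N7
import Pool.Agent.Lib.MP_4fb322_lc_q.Iface

/-! Row N8: Theorem C of the interface. -/

set_option autoImplicit false

namespace Pool.Agent.Lib.MP_4fb322_lc_nip

open Set

theorem thmC : Pool.Agent.Lib.MP_4fb322_lc_q.ThmC := by
  classical
  intro I ar V M hf hn
  have hf' : FinTy M := hf
  unfold Pool.Agent.Lib.MP_4fb322_lc_q.Nip at hn
  push Not at hn
  obtain ⟨n, A, hA⟩ := hn
  rcases tame_or_blocks hf' A with h | ⟨W, S, N, hb⟩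
  · exact absurd (show Pool.Agent.Lib.MP_4fb322_lc_q.Tame {f : Fin n → V | pull f M = A} from h) hA
  have hfin : ∀ j, ∃ (m : ℕ) (e : Fin m ≃ N j), True := fun j => by
    have := (hb.fin j).to_subtype
    obtain ⟨m, ⟨e⟩⟩ := Finite.exists_equiv_fin (N j)
    exact ⟨m, e.symm, trivial⟩
  choose m e _ using hfin
  refine ⟨W, S, N, fun j => ⟨m j, pull (fun x => (e j x).1) S⟩, ?_, ?_⟩
  · intro k f
    obtain ⟨h, hh⟩ := hb.real (Set.range f) (Set.finite_range f)
    refine ⟨h ∘ f, ?_⟩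
    funext i
    ext t
    exact (hh i (f ∘ t) fun x => ⟨t x, rfl⟩).symm
  · intro j
    refine ⟨⟨fun x => (e j x).1, fun x => (e j x).2, rfl⟩, ?_⟩
    rintro ⟨f, hf1, hf2⟩
    apply hb.no j
    refine ⟨fun p => if hp : p ∈ N j then f ((e j).symm ⟨p, hp⟩) else p, ?_, ?_⟩
    · intro p hp
      simp only [hp, dif_pos]
      exact hf1 _
    · intro i t ht
      obtain ⟨t', rfl⟩ : ∃ t' : Fin (ar i) → Fin (m j), t = (fun x => (e j x).1) ∘ t' :=
        ⟨fun k => (e j).symm ⟨t k, ht k⟩, by funext k; simp⟩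
      have h2 : (fun p => if hp : p ∈ N j then f ((e j).symm ⟨p, hp⟩) else p) ∘
          ((fun x => (e j x).1) ∘ t') = f ∘ t' := by
        funext k
        simp
      rw [h2]
      have h3 : t' ∈ (Pool.Agent.Lib.MP_4fb322_lc_q.pull f S) i ↔
          t' ∈ (pull (fun x => (e j x).1) S) i := by
        rw [hf2]
      exact h3.symm

end Pool.Agent.Lib.MP_4fb322_lc_nip
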